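import Pool.Agent.Helper78.Mpc.UnivCorrect

/-!
# Languages in linear space have characteristic functions in the class `LS`

As in `Pool/Agent/Helper78/Mpc/UnivCorrect.lean`, but with symbols of the tapes as digits to a constant
base.
-/

namespace Pool.Agent.Helper92.KR

open Pool.Agent.Helper65.LinSpace Pool.Agent.Helper78.Mpc Finset

/-- The code of a configuration with the digits `d`. -/
def packG (β q W Mn : ℕ) (d : ℕ → ℕ) : ℕ := tab β W d + β ^ W * tab q Mn fun j => d (W + j)

/-- The digit number `idx`. -/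
def rdG (β q W R idx : ℕ) : ℕ :=
  ifz (lt01 idx W) (dig q (R / β ^ W) (idx - W)) (dig β (R % β ^ W) idx)

theorem rd_pack {β q W Mn : ℕ} {d : ℕ → ℕ} (h1 : ∀ i < W, d i < β)
    (h2 : ∀ j < Mn, d (W + j) < q) {idx : ℕ} (h : idx < W + Mn) :
    rdG β q W (packG β q W Mn d) idx = d idx := by
  have h3 : tab β W d < β ^ W := tab_lt h1
  unfold rdG packG
  by_cases h4 : idx < W
  · rw [lt01, if_pos h4, ifz_ne one_ne_zero, Nat.add_mul_mod_self_left, Nat.mod_eq_of_lt h3,
      dig_tab h1 h4]
  · rw [lt01, if_neg h4, ifz_zero, Nat.add_mul_div_left _ _ (by omega), Nat.div_eq_of_lt h3,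
      zero_add, dig_tab h2 (by omega)]
    congr 1
    omega

theorem pack_lt {β q W Mn : ℕ} {d : ℕ → ℕ} (h1 : ∀ i < W, d i < β)
    (h2 : ∀ j < Mn, d (W + j) < q) : packG β q W Mn d < β ^ W * q ^ Mn := by
  have h3 : tab β W d < β ^ W := tab_lt h1
  have h4 : (tab q Mn fun j => d (W + j)) < q ^ Mn := tab_lt h2
  unfold packG
  calc tab β W d + β ^ W * (tab q Mn fun j => d (W + j)) <
      β ^ W + β ^ W * (tab q Mn fun j => d (W + j)) := by omega
    _ = β ^ W * ((tab q Mn fun j => d (W + j)) + 1) := by ring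
    _ ≤ β ^ W * q ^ Mn := Nat.mul_le_mul_left _ h4

theorem pack_congr {β q W Mn : ℕ} {d d' : ℕ → ℕ} (h : ∀ i < W + Mn, d i = d' i) :
    packG β q W Mn d = packG β q W Mn d' := by
  unfold packG
  rw [tab_congr fun i hi => h i (by omega), tab_congr fun j hj => h (W + j) (by omega)]

/-- The code of the symbols read by the work heads. -/
def syG (k q o β R : ℕ) : ℕ :=
  ∑ i ∈ range k, rdG β q (2 + k) R (2 + k + i * (2 * o + 1) + rdG β q (2 + k) R (2 + i)) *
    capPow q i (q ^ k)

/-- The index of the transition table. -/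
def bsG (k q o β x R : ℕ) : ℕ :=
  ((rdG β q (2 + k) R 0 * 3 + inN x (rdG β q (2 + k) R 1)) * q ^ k + syG k q o β R) * (2 * k + 2)

/-- The new digits, `bs` being the index of the transition table. -/
def ndG (k q B0 T o β x R bs idx : ℕ) : ℕ :=
  ifz (dig B0 T bs) (rdG β q (2 + k) R idx)
    (ifz idx (dig B0 T bs - 1)
      (ifz (idx - 1)
        (ifz (dig B0 T (bs + 1)) (rdG β q (2 + k) R 1 - 1)
          (ifz (dig B0 T (bs + 1) - 1) (rdG β q (2 + k) R 1)
            (min (rdG β q (2 + k) R 1 + 1) (Nat.log 2 x + 1))))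
        (ifz (lt01 idx (2 + k))
          (ifz (eq01 ((idx - (2 + k)) % (2 * o + 1))
              (rdG β q (2 + k) R (2 + (idx - (2 + k)) / (2 * o + 1))))
            (rdG β q (2 + k) R idx)
            (dig B0 T (bs + 2 + 2 * ((idx - (2 + k)) / (2 * o + 1)))))
          (rdG β q (2 + k) R idx + dig B0 T (bs + 3 + 2 * (idx - 2)) - 1))))

/-- The reduced digits. -/
def redG (β q W : ℕ) (d : ℕ → ℕ) (i : ℕ) : ℕ := ifz (lt01 i W) (d i % q) (d i % β)

/-- One step of the simulation. -/
def stepG (k q B0 T o β x R : ℕ) : ℕ :=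
  packG β q (2 + k) (k * (2 * o + 1))
    (redG β q (2 + k) fun idx => ndG k q B0 T o β x R (bsG k q o β x R) idx)

/-- The initial configuration. -/
def initG (k q st b0 o β : ℕ) : ℕ :=
  packG β q (2 + k) (k * (2 * o + 1))
    (redG β q (2 + k) fun idx => ifz idx st (ifz (idx - 1) 0 (ifz (lt01 idx (2 + k)) b0 o)))

/-- The result of the simulation. -/
def runG (k q st b0 B0 T acc o β x : ℕ) : ℕ :=
  dig 2 acc (rdG β q (2 + k) (nrec (initG k q st b0 o β) (fun _ R => stepG k q B0 T o β x R)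
    (β ^ (2 + k) * q ^ (k * (2 * o + 1)))) 0)

section LSG

variable {α : Type} [Ctx α]

theorem rdG_le (β q W R idx : ℕ) : rdG β q W R idx ≤ R := by
  unfold rdG ifz dig
  split_ifs
  · exact (Nat.mod_le _ _).trans ((Nat.div_le_self _ _).trans (Nat.div_le_self _ _))
  · exact (Nat.mod_le _ _).trans ((Nat.div_le_self _ _).trans (Nat.mod_le _ _))

@[fun_prop]
theorem LS.rdG {β q R idx : α → ℕ} (hβ : LS β) (hq : LS q) (W : ℕ) (hR : LS R) (hi : LS idx) :
    LS (fun a => rdG (β a) (q a) W (R a) (idx a)) := by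
  unfold KR.rdG
  exact LS.ifz (LS.lt01 hi (LS.const W))
    (LS.dig hq (LS.div hR (LS.pow_const hβ W)) (LS.sub hi (LS.const W)))
    (LS.dig hβ (LS.mod hR (LS.pow_const hβ W)) hi)

@[fun_prop]
theorem LS.syG {o β R : α → ℕ} (k q : ℕ) (ho : LS o) (hβ : LS β) (hR : LS R) :
    LS (fun a => syG k q (o a) (β a) (R a)) := by
  unfold KR.syG
  refine LS.sum_le (N := fun _ => k) (B := fun a => (R a + 1) * (q ^ k + 1))
    (f := fun a i => KR.rdG (β a) q (2 + k) (R a) (2 + k + i * (2 * o a + 1) +
      KR.rdG (β a) q (2 + k) (R a) (2 + i)) * capPow q i (q ^ k)) (by fun_prop) (LS.const k)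
    (by fun_prop) ?_
  intro a i _
  exact Nat.mul_le_mul ((rdG_le _ _ _ _ _).trans (Nat.le_succ _)) (min_le_right _ _)

@[fun_prop]
theorem LS.bsG {o β x R : α → ℕ} (k q : ℕ) (ho : LS o) (hβ : LS β) (hx : LS x) (hR : LS R) :
    LS (fun a => bsG k q (o a) (β a) (x a) (R a)) := by
  unfold KR.bsG
  fun_prop

@[fun_prop]
theorem LS.ndG {o β x R bs idx : α → ℕ} (k q B0 T : ℕ) (ho : LS o)
    (hβ : LS β) (hx : LS x) (hR : LS R) (hbs : LS bs) (hidx : LS idx) :
    LS (fun a => ndG k q B0 T (o a) (β a) (x a) (R a) (bs a) (idx a)) := by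
  unfold KR.ndG
  fun_prop

theorem red_lt {β q W Mn : ℕ} (hβ : 0 < β) (hq : 0 < q) (d : ℕ → ℕ) :
    (∀ i < W, redG β q W d i < β) ∧ ∀ j < Mn, redG β q W d (W + j) < q := by
  constructor
  · intro i hi
    rw [redG, lt01, if_pos hi, ifz_ne one_ne_zero]
    exact Nat.mod_lt _ hβ
  · intro j _
    rw [redG, lt01, if_neg (by omega), ifz_zero]
    exact Nat.mod_lt _ hq

theorem LS.packG {β Mn C : α → ℕ} {d : α → ℕ → ℕ} (q W : ℕ) (hβ : LS β) (hMn : LS Mn)
    (hC : LS C) (hd : LS (fun z : α × ℕ => d z.1 z.2)) (hβ0 : ∀ a, 0 < β a) (hq : 0 < q)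
    (hb : ∀ a, q ^ Mn a ≤ C a) :
    LS (fun a => packG (β a) q W (Mn a) (redG (β a) q W (d a))) := by
  unfold KR.packG
  have h1 : LS (fun z : α × ℕ => redG (β z.1) q W (d z.1) z.2) := by
    unfold redG
    exact LS.ifz (by fun_prop) (LS.mod hd (by fun_prop)) (LS.mod hd (by fun_prop))
  refine LS.add ?_ (LS.mul (LS.pow_const hβ W) ?_)
  · exact LS.tab (q := β) (m := fun _ => W) (C := fun a => β a ^ W)
      (d := fun a i => redG (β a) q W (d a) i) h1 hβ (LS.const W) (LS.pow_const hβ W)
      (fun a i hi => (red_lt (Mn := 0) (hβ0 a) hq _).1 i hi) fun a => le_rfl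
  · refine LS.tab (q := fun _ => q) (m := Mn) (C := C)
      (d := fun a j => redG (β a) q W (d a) (W + j)) ?_ (LS.const q) hMn hC
      (fun a i hi => (red_lt (Mn := Mn a) (hβ0 a) hq _).2 i hi) hb
    exact LS.comp (g := fun z : α × ℕ => redG (β z.1) q W (d z.1) z.2)
      (f := fun z : α × ℕ => (z.1, W + z.2)) h1 (by fun_prop)

theorem LS.runG {o β x C : α → ℕ} (k q st b0 B0 T acc : ℕ) (ho : LS o) (hβ : LS β) (hx : LS x)
    (hC : LS C) (hβ0 : ∀ a, 0 < β a) (hq : 0 < q) (hb : ∀ a, q ^ (k * (2 * o a + 1)) ≤ C a) :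
    LS (fun a => runG k q st b0 B0 T acc (o a) (β a) (x a)) := by
  unfold KR.runG
  have hM : LS (fun a => k * (2 * o a + 1)) := by fun_prop
  refine LS.dig (by fun_prop) (by fun_prop) (LS.rdG hβ (LS.const q) (2 + k) ?_ (LS.const 0))
  refine LS.nrec (G := fun a => initG k q st b0 (o a) (β a))
    (N := fun a => β a ^ (2 + k) * q ^ (k * (2 * o a + 1)))
    (C := fun a => β a ^ (2 + k) * C a)
    (K := fun a _ R => stepG k q B0 T (o a) (β a) (x a) R) ?_ ?_ ?_ ?_ ?_
  · unfold KR.initG
    refine LS.packG (Mn := fun a => k * (2 * o a + 1)) (C := C)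
      (d := fun a idx => ifz idx st (ifz (idx - 1) 0 (ifz (lt01 idx (2 + k)) b0 (o a))))
      q (2 + k) hβ hM hC ?_ hβ0 hq hb
    fun_prop
  · exact LS.mul (LS.pow_const hβ _) (LS.pow_of_le (f := fun _ => q) (LS.const q) hM hC hb)
  · exact LS.mul (LS.pow_const hβ _) hC
  · unfold KR.stepG
    refine LS.packG (α := α × ℕ × ℕ) (β := fun z => β z.1)
      (Mn := fun z => k * (2 * o z.1 + 1)) (C := fun z => C z.1)
      (d := fun z idx => KR.ndG k q B0 T (o z.1) (β z.1) (x z.1) z.2.2
        (KR.bsG k q (o z.1) (β z.1) (x z.1) z.2.2) idx)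
      q (2 + k) (by fun_prop) (by fun_prop) (by fun_prop) ?_ (fun z => hβ0 z.1) hq
      (fun z => hb z.1)
    fun_prop
  · intro a i _
    have hpk : ∀ d : ℕ → ℕ, KR.packG (β a) q (2 + k) (k * (2 * o a + 1))
        (redG (β a) q (2 + k) d) ≤ β a ^ (2 + k) * C a := fun d => by
      have h1 := red_lt (W := 2 + k) (Mn := k * (2 * o a + 1)) (hβ0 a) hq d
      exact (pack_lt h1.1 h1.2).le.trans (Nat.mul_le_mul_left _ (hb a))
    rcases i with _ | i
    · exact hpk _
    · rw [nrec_succ]
      exact hpk _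

end LSG

/-! ### Correctness -/

section

variable {k : ℕ} {M : TM k} {a q : ℕ} {eS : M.State ≃ Fin a} {eY : M.Sym ≃ Fin q}

theorem encC_sym {o : ℕ} (c : M.Cfg) (j : ℕ) (hj : j < k * (2 * o + 1)) :
    encC M eS eY o c (2 + k + j) < q := by
  unfold encC
  rw [if_neg (by omega), if_neg (by omega), if_neg (by omega), if_pos (by omega)]
  exact symN_lt _ _

theorem rd_enc {o β : ℕ} {w : List Bool} {c : M.Cfg} (hc : InR o c)
    (hin : c.inp ≤ w.length + 1) (hβ : a + q + 2 * o + w.length + 3 ≤ β) {idx : ℕ}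
    (h : idx < 2 + k + k * (2 * o + 1)) :
    rdG β q (2 + k) (packG β q (2 + k) (k * (2 * o + 1)) (encC M eS eY o c)) idx =
      encC M eS eY o c idx :=
  rd_pack (fun i _ => encC_lt hc hin hβ i) (fun j hj => encC_sym c j hj) h

theorem red_enc {o β : ℕ} {w : List Bool} {c : M.Cfg} (hc : InR o c)
    (hin : c.inp ≤ w.length + 1) (hβ : a + q + 2 * o + w.length + 3 ≤ β) {idx : ℕ} {d : ℕ → ℕ}
    (h : idx < 2 + k + k * (2 * o + 1)) (hd : d idx = encC M eS eY o c idx) :
    redG β q (2 + k) d idx = encC M eS eY o c idx := by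
  unfold redG
  rw [hd]
  by_cases h1 : idx < 2 + k
  · rw [lt01, if_pos h1, ifz_ne one_ne_zero, Nat.mod_eq_of_lt (encC_lt hc hin hβ idx)]
  · rw [lt01, if_neg h1, ifz_zero, Nat.mod_eq_of_lt]
    have := encC_sym (eS := eS) (eY := eY) (o := o) c (idx - (2 + k)) (by omega)
    rwa [Nat.add_sub_cancel' (by omega)] at this

theorem syG_eq {o β : ℕ} {w : List Bool} {c : M.Cfg} (hc : InR o c)
    (hin : c.inp ≤ w.length + 1) (hβ : a + q + 2 * o + w.length + 3 ≤ β) :
    syG k q o β (packG β q (2 + k) (k * (2 * o + 1)) (encC M eS eY o c)) =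
      tab q k fun i => symN M eY o c i (headN M o c i) := by
  unfold syG tab
  have hq0 : 0 < q := lt_of_le_of_lt (Nat.zero_le _) (eY M.blank).2
  refine sum_congr rfl fun i hi => ?_
  rw [mem_range] at hi
  have h1 : (i + 1) * (2 * o + 1) ≤ k * (2 * o + 1) := Nat.mul_le_mul_right _ hi
  rw [Nat.succ_mul] at h1
  have h2 : rdG β q (2 + k) (packG β q (2 + k) (k * (2 * o + 1)) (encC M eS eY o c)) (2 + i) =
      headN M o c i := by
    rw [rd_enc hc hin hβ (by omega)]
    unfold encC
    rw [if_neg (by omega), if_neg (by omega), if_pos (by omega)]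
    congr 1
    omega
  have h3 := headN_lt hc i
  rw [h2, rd_enc hc hin hβ (by omega)]
  have h4 : encC M eS eY o c (2 + k + i * (2 * o + 1) + headN M o c i) =
      symN M eY o c i (headN M o c i) := by
    unfold encC
    rw [if_neg (by omega), if_neg (by omega), if_neg (by omega), if_pos (by omega)]
    have h5 : 2 + k + i * (2 * o + 1) + headN M o c i - (2 + k) =
      i * (2 * o + 1) + headN M o c i := by omega
    rw [h5, div_eq_block h3, mod_eq_block h3]
  rw [h4, capPow, min_eq_left]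
  have : q ^ i ≤ q ^ k := Nat.pow_le_pow_right hq0 hi.le
  omega

theorem bsG_eq {o β : ℕ} {w : List Bool} {c : M.Cfg} (hc : InR o c)
    (hin : c.inp ≤ w.length + 1) (hβ : a + q + 2 * o + w.length + 3 ≤ β) :
    bsG k q o β (num w) (packG β q (2 + k) (k * (2 * o + 1)) (encC M eS eY o c)) =
      ((eS c.state * 3 + codeO (inputSym w c.inp)) * q ^ k +
        tab q k fun i => symN M eY o c i (headN M o c i)) * (2 * k + 2) := by
  have h0 : rdG β q (2 + k) (packG β q (2 + k) (k * (2 * o + 1)) (encC M eS eY o c)) 0 =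
      eS c.state := by
    rw [rd_enc hc hin hβ (by omega)]
    rfl
  have h1 : rdG β q (2 + k) (packG β q (2 + k) (k * (2 * o + 1)) (encC M eS eY o c)) 1 =
      c.inp := by
    rw [rd_enc hc hin hβ (by omega)]
    rfl
  unfold bsG
  rw [syG_eq hc hin hβ, h0, h1, inN_num]

/-- **One step of the simulation.** -/
theorem stepG_eq {o β : ℕ} {w : List Bool} {c : M.Cfg} (hc : InR o c)
    (hc' : InR o ((M.next w c).getD c))
    (hin : c.inp ≤ w.length + 1) (hβ : a + q + 2 * o + w.length + 3 ≤ β) :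
    stepG k q (a + q + 4) (TT M eS eY) o β (num w)
        (packG β q (2 + k) (k * (2 * o + 1)) (encC M eS eY o c)) =
      packG β q (2 + k) (k * (2 * o + 1)) (encC M eS eY o ((M.next w c).getD c)) := by
  have hin' : ((M.next w c).getD c).inp ≤ w.length + 1 := by
    unfold TM.next
    rcases M.step c.state (inputSym w c.inp) (fun i => c.tape i (c.head i)) with _ | r
    · exact hin
    · exact inputMove_le _ _ hin
  unfold stepG
  rw [bsG_eq hc hin hβ]
  set sy := tab q k fun i => symN M eY o c i (headN M o c i) with hsy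
  have hsylt : sy < q ^ k := tab_lt fun i _ => symN_lt _ _
  set bs := ((eS c.state * 3 + codeO (inputSym w c.inp)) * q ^ k + sy) * (2 * k + 2) with hbs
  have hT : ∀ f < 2 * k + 2, dig (a + q + 4) (TT M eS eY) (bs + f) =
      (M.step c.state (inputSym w c.inp) (fun i => c.tape i (c.head i))).elim 0 fun r =>
        ent M eS eY r f := fun f hf => by
    rw [hbs, dig_TT M eS eY (eS c.state).2 (codeO_lt _) hsylt hf, hsy, tbl_eq hc]
  have hR : ∀ idx < 2 + k + k * (2 * o + 1), rdG β q (2 + k)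
      (packG β q (2 + k) (k * (2 * o + 1)) (encC M eS eY o c)) idx = encC M eS eY o c idx :=
    fun idx h => rd_enc hc hin hβ h
  refine pack_congr fun idx hidx => red_enc hc' hin' hβ hidx ?_
  unfold TM.next
  rcases hr : M.step c.state (inputSym w c.inp) (fun i => c.tape i (c.head i)) with _ | r
  · have h0 : dig (a + q + 4) (TT M eS eY) bs = 0 := by
      have := hT 0 (by omega)
      rw [hr] at this
      exact this
    unfold ndG
    rw [h0, ifz_zero, hR idx hidx]
    rfl
  · rw [hr] at hT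
    have h0 : dig (a + q + 4) (TT M eS eY) bs = eS r.1 + 1 := hT 0 (by omega)
    have h1 : dig (a + q + 4) (TT M eS eY) (bs + 1) = dirN r.2.1 := hT 1 (by omega)
    have h2 : ∀ (i : ℕ) (hi : i < k), dig (a + q + 4) (TT M eS eY) (bs + 2 + 2 * i) =
        eY (r.2.2 ⟨i, hi⟩).1 := by
      intro i hi
      have := hT (2 + 2 * i) (by omega)
      rw [← add_assoc] at this
      rw [this]
      show ent M eS eY r _ = _
      unfold ent
      have e1 : (2 + 2 * i - 2) / 2 = i := by omega
      rw [if_neg (by omega), if_neg (by omega), dif_pos (by omega), if_pos (by omega)]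
      congr 3
      exact congrArg r.2.2 (Fin.ext e1)
    have h3 : ∀ (i : ℕ) (hi : i < k), dig (a + q + 4) (TT M eS eY) (bs + 3 + 2 * i) =
        dirN (r.2.2 ⟨i, hi⟩).2 := by
      intro i hi
      have := hT (3 + 2 * i) (by omega)
      rw [← add_assoc] at this
      rw [this]
      show ent M eS eY r _ = _
      unfold ent
      have e1 : (3 + 2 * i - 2) / 2 = i := by omega
      rw [if_neg (by omega), if_neg (by omega), dif_pos (by omega), if_neg (by omega)]
      congr 2
      exact congrArg r.2.2 (Fin.ext e1)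
    have hc2 : InR o ({ state := r.1
                        inp := inputMove w r.2.1 c.inp
                        tape := fun i => Function.update (c.tape i) (c.head i) (r.2.2 i).1
                        head := fun i => c.head i + (r.2.2 i).2.toInt } : M.Cfg) := by
      have := hc'
      unfold TM.next at this
      rw [hr] at this
      exact this
    show ndG k q (a + q + 4) (TT M eS eY) o β (num w)
        (packG β q (2 + k) (k * (2 * o + 1)) (encC M eS eY o c)) bs idx =
      encC M eS eY o { state := r.1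
                       inp := inputMove w r.2.1 c.inp
                       tape := fun i => Function.update (c.tape i) (c.head i) (r.2.2 i).1
                       head := fun i => c.head i + (r.2.2 i).2.toInt } idx
    unfold ndG
    rw [h0, ifz_ne (Nat.succ_ne_zero _)]
    by_cases c0 : idx = 0
    · subst c0
      rw [ifz_zero]
      rfl
    rw [ifz_ne c0]
    by_cases c1 : idx = 1
    · subst c1
      rw [ifz_zero, h1, hR 1 (by omega), log_num]
      show _ = inputMove w r.2.1 c.inp
      rw [inputMove_eq]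
      rfl
    rw [ifz_ne (by omega)]
    by_cases c2 : idx < 2 + k
    · rw [lt01, if_pos c2, ifz_ne one_ne_zero, hR idx hidx, h3 (idx - 2) (by omega)]
      unfold encC
      rw [if_neg c0, if_neg c1, if_pos c2, if_neg c0, if_neg c1, if_pos c2]
      unfold headN
      rw [dif_pos (by omega), dif_pos (by omega)]
      have e1 := abs_le.1 (hc ⟨idx - 2, by omega⟩)
      have e2 := abs_le.1 (hc2 ⟨idx - 2, by omega⟩)
      simp only at e2 ⊢
      generalize (r.2.2 ⟨idx - 2, by omega⟩).2 = d at *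
      generalize c.head ⟨idx - 2, by omega⟩ = hd at *
      cases d <;> simp only [dirN, Dir.toInt] at * <;> omega
    rw [lt01, if_neg c2, ifz_zero]
    have hpos : (idx - (2 + k)) % (2 * o + 1) < 2 * o + 1 := Nat.mod_lt _ (by omega)
    have hi : (idx - (2 + k)) / (2 * o + 1) < k := by
      rw [Nat.div_lt_iff_lt_mul (by omega)]
      omega
    generalize hiD : (idx - (2 + k)) / (2 * o + 1) = i at *
    generalize hpD : (idx - (2 + k)) % (2 * o + 1) = pos at *
    have e3 : rdG β q (2 + k) (packG β q (2 + k) (k * (2 * o + 1)) (encC M eS eY o c)) (2 + i) =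
        headN M o c i := by
      rw [hR (2 + i) (by omega)]
      unfold encC
      rw [if_neg (by omega), if_neg (by omega), if_pos (by omega)]
      congr 1
      omega
    rw [e3, h2 i hi, hR idx hidx]
    have e4 : ∀ c : M.Cfg, encC M eS eY o c idx = symN M eY o c i pos := by
      intro c
      unfold encC
      rw [if_neg c0, if_neg c1, if_neg c2, if_pos hidx, hiD, hpD]
    rw [e4, e4]
    have e5 := abs_le.1 (hc ⟨i, hi⟩)
    have e6 : (pos = headN M o c i) ↔ ((pos : ℤ) - o = c.head ⟨i, hi⟩) := by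
      unfold headN
      rw [dif_pos hi]
      omega
    unfold Helper78.Mpc.symN
    rw [dif_pos hi, dif_pos hi]
    by_cases h7 : pos = headN M o c i
    · rw [eq01_of h7, ifz_ne one_ne_zero, e6.1 h7]
      show _ = (eY (Function.update (c.tape ⟨i, hi⟩) (c.head ⟨i, hi⟩) (r.2.2 ⟨i, hi⟩).1
        (c.head ⟨i, hi⟩)) : ℕ)
      rw [Function.update_self]
    · rw [eq01_ne h7, ifz_zero]
      show _ = (eY (Function.update (c.tape ⟨i, hi⟩) (c.head ⟨i, hi⟩) (r.2.2 ⟨i, hi⟩).1
        ((pos : ℤ) - o)) : ℕ)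
      rw [Function.update_of_ne (fun h => h7 (e6.2 h))]

theorem initG_eq {o β : ℕ} {w : List Bool} (hβ : a + q + 2 * o + w.length + 3 ≤ β) :
    initG k q (eS M.start) (eY M.blank) o β =
      packG β q (2 + k) (k * (2 * o + 1)) (encC M eS eY o (M.run w 0)) := by
  unfold initG
  have hR : InR o (M.run w 0) := fun i => by
    show |(0 : ℤ)| ≤ _
    simp
  refine pack_congr fun idx hidx => red_enc hR (w := w) (Nat.zero_le _) hβ hidx ?_
  unfold encC
  by_cases c0 : idx = 0
  · subst c0
    rfl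
  rw [ifz_ne c0, if_neg c0]
  by_cases c1 : idx = 1
  · subst c1
    rfl
  rw [ifz_ne (by omega), if_neg c1]
  by_cases c2 : idx < 2 + k
  · rw [lt01, if_pos c2, ifz_ne one_ne_zero, if_pos c2]
    unfold headN
    rw [dif_pos (by omega)]
    show o = ((0 : ℤ) + o).toNat
    omega
  rw [lt01, if_neg c2, ifz_zero, if_neg c2, if_pos hidx]
  have hi : (idx - (2 + k)) / (2 * o + 1) < k := by
    rw [Nat.div_lt_iff_lt_mul (by omega)]
    omega
  unfold Helper78.Mpc.symN
  rw [dif_pos hi]
  rfl

theorem nrecG_eq {o β : ℕ} {w : List Bool} (hR : ∀ t, InR o (M.run w t))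
    (hβ : a + q + 2 * o + w.length + 3 ≤ β) (t : ℕ) :
    nrec (initG k q (eS M.start) (eY M.blank) o β) (fun _ R => stepG k q (a + q + 4)
      (TT M eS eY) o β (num w) R) t =
      packG β q (2 + k) (k * (2 * o + 1)) (encC M eS eY o (M.run w t)) ∧
      (M.run w t).inp ≤ w.length + 1 := by
  induction t with
  | zero => exact ⟨initG_eq hβ, Nat.zero_le _⟩
  | succ t ih =>
    rw [nrec_succ, ih.1]
    refine ⟨stepG_eq (hR t) (hR (t + 1)) ih.2 hβ, ?_⟩
    show ((M.next w (M.run w t)).getD (M.run w t)).inp ≤ _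
    unfold TM.next
    rcases M.step (M.run w t).state (inputSym w (M.run w t).inp)
      (fun i => (M.run w t).tape i ((M.run w t).head i)) with _ | r
    · exact ih.2
    · exact inputMove_le _ _ ih.2

end

/-- **The simulation.** -/
theorem runG_spec {L : Set (List Bool)} (hL : DLINSPACE L) :
    ∃ k q st b0 B0 T acc c : ℕ, 0 < q ∧ ∀ (w : List Bool) (o β : ℕ),
      c * (w.length + 1) ≤ o → c + 2 * o + w.length + 3 ≤ β →
      (runG k q st b0 B0 T acc o β (num w) = 1 ↔ w ∈ L) := by
  classical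
  obtain ⟨k, M, c, hM⟩ := hL
  have := M.finState
  have := M.finSym
  obtain ⟨a, ⟨eS⟩⟩ := Finite.exists_equiv_fin M.State
  obtain ⟨q, ⟨eY⟩⟩ := Finite.exists_equiv_fin M.Sym
  have hq0 : 0 < q := lt_of_le_of_lt (Nat.zero_le _) (eY M.blank).2
  refine ⟨k, q, eS M.start, eY M.blank, a + q + 4, TT M eS eY,
    tab 2 a (fun i => if decS M eS i ∈ M.accept then 1 else 0), c + a + q, hq0, ?_⟩
  intro w o β ho hβ
  obtain ⟨⟨t, ht, hacc⟩, hspace⟩ := hM w
  have hR : ∀ t, InR o (M.run w t) := by
    intro t i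
    refine (hspace t i).trans ?_
    have h1 : c * (w.length + 1) ≤ (c + a + q) * (w.length + 1) :=
      Nat.mul_le_mul_right _ (by omega)
    exact_mod_cast h1.trans ho
  have hβ1 : a + q + 2 * o + w.length + 3 ≤ β := by omega
  have hrec := fun t => nrecG_eq (eS := eS) (eY := eY) hR hβ1 t
  unfold runG
  set R : ℕ → ℕ := fun t => nrec (initG k q (eS M.start) (eY M.blank) o β)
    (fun _ R => stepG k q (a + q + 4) (TT M eS eY) o β (num w) R) t with hRdef
  have hRt : ∀ t, R t = packG β q (2 + k) (k * (2 * o + 1)) (encC M eS eY o (M.run w t)) :=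
    fun t => (hrec t).1
  have hRlt : ∀ t, R t < β ^ (2 + k) * q ^ (k * (2 * o + 1)) := fun t => by
    rw [hRt]
    exact pack_lt (fun i _ => encC_lt (hR t) (hrec t).2 hβ1 i) fun j hj => encC_sym _ j hj
  have hhalt : ∀ t, (M.next w (M.run w t) = none ↔
      dig (a + q + 4) (TT M eS eY) (bsG k q o β (num w) (R t)) = 0) := by
    intro t
    rw [hRt, bsG_eq (hR t) (hrec t).2 hβ1]
    have h1 := dig_TT M eS eY (f := 0) (eS (M.run w t).state).2
      (codeO_lt (inputSym w (M.run w t).inp))
      (tab_lt (q := q) (m := k)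
        (d := fun i => symN M eY o (M.run w t) i (headN M o (M.run w t) i))
        (fun i _ => symN_lt (eY := eY) _ _)) (by omega)
    rw [add_zero] at h1
    rw [h1, tbl_eq (hR t)]
    unfold TM.next
    rcases M.step (M.run w t).state (inputSym w (M.run w t).inp)
      (fun i => (M.run w t).tape i ((M.run w t).head i)) with _ | r
    · simp
    · simp [ent]
  obtain ⟨t0, ht0, hP⟩ := iterate_find (R := R)
    (g := fun R => stepG k q (a + q + 4) (TT M eS eY) o β (num w) R)
    (fun t => rfl) hRlt (P := fun x => dig (a + q + 4) (TT M eS eY)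
      (bsG k q o β (num w) x) = 0) ⟨t, (hhalt t).1 ht⟩
  have hh0 : M.next w (M.run w t0) = none := (hhalt t0).2 hP
  have hstay : ∀ t1, M.next w (M.run w t1) = none → ∀ s, M.run w (t1 + s) = M.run w t1 := by
    intro t1 h1 s
    induction s with
    | zero => rfl
    | succ s ih =>
      show (M.next w (M.run w (t1 + s))).getD (M.run w (t1 + s)) = _
      rw [ih, h1]
      rfl
  generalize hNd : β ^ (2 + k) * q ^ (k * (2 * o + 1)) = N at *
  have hrun : M.run w N = M.run w t := by
    have h1 := hstay t0 hh0 (N - t0)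
    have h2 : t0 + (N - t0) = N := by omega
    rw [h2] at h1
    rw [h1]
    rcases le_total t0 t with h | h
    · have := hstay t0 hh0 (t - t0)
      rw [Nat.add_sub_cancel' h] at this
      exact this.symm
    · have := hstay t ht (t0 - t)
      rw [Nat.add_sub_cancel' h] at this
      exact this
  have hfin : rdG β q (2 + k) (R N) 0 = eS (M.run w t).state := by
    rw [hRt, rd_enc (hR N) (hrec N).2 hβ1 (by omega), hrun]
    rfl
  have hacc2 : dig 2 (tab 2 a (fun i => if decS M eS i ∈ M.accept then 1 else 0))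
      (eS (M.run w t).state) = if (M.run w t).state ∈ M.accept then 1 else 0 := by
    rw [dig_tab (fun i _ => by split_ifs <;> norm_num) (eS (M.run w t).state).2, decS_eS]
  show dig 2 _ (rdG β q (2 + k) (R N) 0) = 1 ↔ _
  rw [hfin, hacc2, hacc]
  split_ifs with h <;> simp [h]

/-- **A language in linear space has a characteristic function in the class `LS`.** -/
theorem exists_char {L : Set (List Bool)} (hL : DLINSPACE L) :
    ∃ F : ℕ → ℕ, LS F ∧ (∀ x, F x ≤ 1) ∧ ∀ w, F (num w) = 1 ↔ w ∈ L := by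
  obtain ⟨k, q, st, b0, B0, T, acc, c, hq, h⟩ := runG_spec hL
  refine ⟨fun x => runG k q st b0 B0 T acc (c * (Nat.log 2 x + 1))
    (c + 2 * (c * (Nat.log 2 x + 1)) + Nat.log 2 x + 3) x, ?_, fun x => ?_, fun w => ?_⟩
  · refine LS.runG (o := fun x => c * (Nat.log 2 x + 1))
      (β := fun x => c + 2 * (c * (Nat.log 2 x + 1)) + Nat.log 2 x + 3) (x := fun x => x)
      (C := fun x => 2 ^ (q * (k * (2 * c + 1))) * (x + 1) ^ (q * (k * (2 * c))))
      k q st b0 B0 T acc (by fun_prop) (by fun_prop) (by fun_prop) (by fun_prop)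
      (fun x => by omega) hq fun x => ?_
    have h1 : q ≤ 2 ^ q := Nat.lt_two_pow_self.le
    have h2 : 2 ^ Nat.log 2 x ≤ x + 1 := by
      rcases Nat.eq_zero_or_pos x with h0 | h0
      · rw [h0]
        simp
      · exact (Nat.pow_log_le_self 2 h0.ne').trans (Nat.le_succ _)
    calc q ^ (k * (2 * (c * (Nat.log 2 x + 1)) + 1)) ≤
        (2 ^ q) ^ (k * (2 * (c * (Nat.log 2 x + 1)) + 1)) := Nat.pow_le_pow_left h1 _
      _ = 2 ^ (q * (k * (2 * c + 1))) * (2 ^ Nat.log 2 x) ^ (q * (k * (2 * c))) := by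
          rw [← pow_mul, ← pow_mul, ← pow_add]
          congr 1
          ring
      _ ≤ _ := Nat.mul_le_mul_left _ (Nat.pow_le_pow_left h2 _)
  · have := dig_lt (q := 2) (by norm_num) acc (rdG
      (c + 2 * (c * (Nat.log 2 x + 1)) + Nat.log 2 x + 3) q (2 + k)
      (nrec (initG k q st b0 (c * (Nat.log 2 x + 1))
        (c + 2 * (c * (Nat.log 2 x + 1)) + Nat.log 2 x + 3))
        (fun _ R => stepG k q B0 T (c * (Nat.log 2 x + 1))
          (c + 2 * (c * (Nat.log 2 x + 1)) + Nat.log 2 x + 3) x R)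
        ((c + 2 * (c * (Nat.log 2 x + 1)) + Nat.log 2 x + 3) ^ (2 + k) *
          q ^ (k * (2 * (c * (Nat.log 2 x + 1)) + 1)))) 0)
    show dig 2 acc _ ≤ 1
    omega
  · show runG k q st b0 B0 T acc (c * (Nat.log 2 (num w) + 1))
      (c + 2 * (c * (Nat.log 2 (num w) + 1)) + Nat.log 2 (num w) + 3) (num w) = 1 ↔ w ∈ L
    rw [log_num]
    exact h w _ _ le_rfl le_rfl

end Pool.Agent.Helper92.KR
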