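import Pool.Agent.Helper92.KR.Defs
import Pool.Agent.Helper92.KR.TML
import Pool.Agent.Helper78.Mpc.Words

/-!
# Codes of words, and functions on words computed in linear space
-/

namespace Pool.Agent.Helper92.KR

open Pool.Agent.Helper65.LinSpace Pool.Agent.Helper78.Mpc Finset

/-! ### The number of the letters `1` at the beginning -/

/-- The number of the letters `1` at the beginning of the word with the number `a`. -/
def l1 (a : ℕ) : ℕ := ∑ i ∈ range (Nat.log 2 a), ifz ((a + 1) % 2 ^ (i + 1)) 1 0

/-- The rest of the word, without the letters `1` at the beginning and the next letter. -/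
def rst (a : ℕ) : ℕ := a / 2 ^ (l1 a + 1)

@[fun_prop]
theorem LS.l1 {α : Type} [Ctx α] {f : α → ℕ} (hf : LS f) : LS (fun a => l1 (f a)) := by
  unfold KR.l1
  refine LS.sum_le (N := fun a => Nat.log 2 (f a)) (B := fun _ => 1)
    (f := fun a i => ifz ((f a + 1) % 2 ^ (i + 1)) 1 0) ?_ (by fun_prop) (by fun_prop) ?_
  · exact LS.ifz (LS.modPow (LS.const 2) (by fun_prop) (by fun_prop)) (LS.const 1) (LS.const 0)
  · intro a i _
    unfold ifz
    split_ifs <;> omega

@[fun_prop]
theorem LS.rst {α : Type} [Ctx α] {f : α → ℕ} (hf : LS f) : LS (fun a => rst (f a)) := by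
  unfold KR.rst
  exact LS.divPow (LS.const 2) hf (by fun_prop)

theorem l1_le (a : ℕ) : l1 a ≤ Nat.log 2 a := by
  unfold l1
  refine (sum_le_sum (g := fun _ => 1) fun i _ => ?_).trans (by simp)
  unfold ifz
  split_ifs <;> omega

theorem log_code (e m : ℕ) (hm : 0 < m) :
    Nat.log 2 (2 ^ e - 1 + 2 ^ (e + 1) * m) = e + 1 + Nat.log 2 m := by
  have h0 : 0 < 2 ^ e := by positivity
  have h1 : 2 ^ (e + 1) = 2 * 2 ^ e := by rw [pow_succ]; ring
  have h2 : 2 ^ Nat.log 2 m ≤ m := Nat.pow_log_le_self 2 hm.ne'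
  have h3 : m < 2 ^ (Nat.log 2 m + 1) := Nat.lt_pow_succ_log_self (by norm_num) _
  refine (Nat.log_eq_iff (Or.inl (by omega))).2 ⟨?_, ?_⟩
  · calc 2 ^ (e + 1 + Nat.log 2 m) = 2 ^ (e + 1) * 2 ^ Nat.log 2 m := by rw [pow_add]
      _ ≤ 2 ^ (e + 1) * m := Nat.mul_le_mul_left _ h2
      _ ≤ _ := Nat.le_add_left _ _
  · calc 2 ^ e - 1 + 2 ^ (e + 1) * m < 2 ^ (e + 1) + 2 ^ (e + 1) * m := by omega
      _ = 2 ^ (e + 1) * (m + 1) := by ring
      _ ≤ 2 ^ (e + 1) * 2 ^ (Nat.log 2 m + 1) := Nat.mul_le_mul_left _ h3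
      _ = _ := by rw [← pow_add]; ring_nf

theorem l1_code (e m : ℕ) (hm : 0 < m) : l1 (2 ^ e - 1 + 2 ^ (e + 1) * m) = e := by
  have hlog := log_code e m hm
  have h0 : 0 < 2 ^ e := by positivity
  have h1 : 2 ^ e - 1 + 2 ^ (e + 1) * m + 1 = 2 ^ e * (1 + 2 * m) := by
    have : 2 ^ (e + 1) = 2 * 2 ^ e := by rw [pow_succ]; ring
    rw [this]
    have e2 : 2 ^ e - 1 + 2 * 2 ^ e * m + 1 = 2 ^ e + 2 * 2 ^ e * m := by omega
    rw [e2]
    ring
  unfold l1
  rw [hlog]
  refine sum_lt_ind (by omega) fun i hi => ?_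
  rw [h1]
  by_cases h : i < e
  · rw [if_pos h]
    have h2 : 2 ^ e * (1 + 2 * m) % 2 ^ (i + 1) = 0 := by
      refine Nat.mod_eq_zero_of_dvd (Dvd.dvd.mul_right ?_ _)
      exact pow_dvd_pow 2 (by omega)
    rw [h2, ifz_zero]
  · rw [if_neg h]
    have h2 : 2 ^ e * (1 + 2 * m) % 2 ^ (i + 1) ≠ 0 := by
      intro h3
      have h4 : 2 ^ (e + 1) ∣ 2 ^ e * (1 + 2 * m) :=
        (pow_dvd_pow 2 (by omega)).trans (Nat.dvd_of_mod_eq_zero h3)
      rw [pow_succ] at h4
      have h5 : 2 ∣ 1 + 2 * m := Nat.dvd_of_mul_dvd_mul_left h0 h4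
      omega
    rw [ifz_ne h2]

theorem rst_code (e m : ℕ) (hm : 0 < m) : rst (2 ^ e - 1 + 2 ^ (e + 1) * m) = m := by
  unfold rst
  rw [l1_code e m hm]
  have h0 : 0 < 2 ^ e := by positivity
  have h1 : 2 ^ (e + 1) = 2 * 2 ^ e := by rw [pow_succ]; ring
  rw [Nat.add_mul_div_left _ _ (by omega), Nat.div_eq_of_lt (by omega), zero_add]

theorem num_cd (n : ℕ) (d : List Bool) : num (cd n d) = 2 ^ n - 1 + 2 ^ (n + 1) * num d := by
  unfold cd
  induction n with
  | zero =>
    show (false.toNat : ℕ) + 2 * num d = _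
    simp
  | succ n ih =>
    have h1 : num (List.replicate (n + 1) true ++ false :: d) =
        1 + 2 * num (List.replicate n true ++ false :: d) := rfl
    have h0 : 0 < 2 ^ n := by positivity
    have h2 : 2 ^ (n + 1) * num d = 2 * (2 ^ n * num d) := by rw [pow_succ]; ring
    have h3 : 2 ^ (n + 1 + 1) * num d = 4 * (2 ^ n * num d) := by rw [pow_succ, pow_succ]; ring
    have h4 : 2 ^ (n + 1) = 2 * 2 ^ n := by rw [pow_succ]; ring
    rw [h1, ih, h2, h3, h4]
    omega

theorem l1_cd (n : ℕ) (d : List Bool) : l1 (num (cd n d)) = n := by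
  rw [num_cd, l1_code n _ (num_pos d)]

theorem rst_cd (n : ℕ) (d : List Bool) : rst (num (cd n d)) = num d := by
  rw [num_cd, rst_code n _ (num_pos d)]

theorem num_ones (n : ℕ) : num (List.replicate n true) = 2 ^ (n + 1) - 1 := by
  induction n with
  | zero => rfl
  | succ n ih =>
    have h1 : num (List.replicate (n + 1) true) = 1 + 2 * num (List.replicate n true) := rfl
    rw [h1, ih, pow_succ 2 (n + 1)]
    have h0 : 0 < 2 ^ (n + 1) := by positivity
    omega

theorem l1_ones (n : ℕ) : l1 (num (List.replicate n true)) = n := by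
  have h0 : Nat.log 2 (num (List.replicate n true)) = n := by
    rw [log_num, List.length_replicate]
  unfold l1
  rw [h0]
  refine (sum_congr rfl fun i hi => ?_).trans (by simp : ∑ _ ∈ range n, 1 = n)
  rw [mem_range] at hi
  rw [num_ones, Nat.sub_add_cancel (Nat.one_le_two_pow), Nat.mod_eq_zero_of_dvd
    (pow_dvd_pow 2 (by omega)), ifz_zero]

theorem word_cases (u : List Bool) :
    (∃ n, u = List.replicate n true) ∨ ∃ n d, u = cd n d := by
  induction u with
  | nil => exact Or.inl ⟨0, rfl⟩
  | cons b u ih =>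
    cases b with
    | false => exact Or.inr ⟨0, u, rfl⟩
    | true =>
      rcases ih with ⟨n, rfl⟩ | ⟨n, d, rfl⟩
      · exact Or.inl ⟨n + 1, rfl⟩
      · exact Or.inr ⟨n + 1, d, rfl⟩

/-- The word `u` has the form `1 ^ n 0 d` if and only if `l1` is smaller than its length. -/
theorem l1_lt_iff (u : List Bool) : l1 (num u) < u.length ↔ ∃ n d, u = cd n d := by
  constructor
  · intro h
    rcases word_cases u with ⟨n, rfl⟩ | h1
    · rw [l1_ones, List.length_replicate] at h
      omega
    · exact h1
  · rintro ⟨n, d, rfl⟩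
    rw [l1_cd]
    simp [cd]

/-! ### Functions on words -/

/-- The word with the number `y`. -/
noncomputable def wd (y : ℕ) : List Bool := if h : 0 < y then (exists_num h).choose else []

theorem num_wd {y : ℕ} (h : 0 < y) : num (wd y) = y := by
  unfold wd
  rw [dif_pos h]
  exact (exists_num h).choose_spec

theorem num_inj {w v : List Bool} (h : num w = num v) : w = v := by
  induction w generalizing v with
  | nil =>
    cases v with
    | nil => rfl
    | cons b v =>
      have h1 := num_pos v
      have h2 : num (b :: v) = b.toNat + 2 * num v := rfl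
      rw [h2] at h
      simp only [num] at h
      omega
  | cons b w ih =>
    cases v with
    | nil =>
      have h1 := num_pos w
      have h2 : num (b :: w) = b.toNat + 2 * num w := rfl
      rw [h2] at h
      simp only [num] at h
      omega
    | cons b' v =>
      have h2 : num (b :: w) = b.toNat + 2 * num w := rfl
      have h3 : num (b' :: v) = b'.toNat + 2 * num v := rfl
      have h4 := toNat_le_one b
      have h5 := toNat_le_one b'
      rw [h2, h3] at h
      have h6 : b = b' := by
        cases b <;> cases b' <;> simp at h ⊢ <;> omega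
      subst h6
      have h7 : num w = num v := by omega
      rw [ih h7]

theorem wd_num (w : List Bool) : wd (num w) = w := num_inj (num_wd (num_pos w))

theorem log_wd (y : ℕ) : (wd y).length = Nat.log 2 y := by
  by_cases h : 0 < y
  · rw [← log_num, num_wd h]
  · have : y = 0 := by omega
    subst this
    simp [wd]

theorem getElem_wd (y i : ℕ) (b : Bool) :
    (wd y)[i]? = some b ↔ i < Nat.log 2 y ∧ dig 2 y i = b.toNat := by
  rw [← log_wd]
  constructor
  · intro h
    obtain ⟨h1, h2⟩ := List.getElem?_eq_some_iff.1 h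
    refine ⟨h1, ?_⟩
    have hy : 0 < y := by
      by_contra h0
      have : y = 0 := by omega
      subst this
      simp [wd] at h1
    have h3 := dig_num (wd y) i h1
    rw [num_wd hy, h2] at h3
    exact h3
  · rintro ⟨h1, h2⟩
    have hy : 0 < y := by
      by_contra h0
      have : y = 0 := by omega
      subst this
      simp [wd] at h1
    have h3 := dig_num (wd y) i h1
    rw [num_wd hy, h2] at h3
    refine List.getElem?_eq_some_iff.2 ⟨h1, ?_⟩
    cases hb : (wd y)[i] <;> cases b <;> rw [hb] at h3 <;> simp_all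

/-- A function on words which is given by a function in the class `LS` is computed in linear
space. -/
theorem linComp_of {V : ℕ → ℕ} (hV : LS V) : LinComp fun w => wd (V (num w)) := by
  intro b
  refine LS.dlinspace (F := fun u => lt01 (l1 u) (Nat.log 2 u) *
    (lt01 (l1 u) (Nat.log 2 (V (rst u))) * eq01 (dig 2 (V (rst u)) (l1 u)) b.toNat)) ?_ _ ?_
  · have h1 : LS (fun u => V (rst u)) := LS.comp (f := fun u => rst u) hV (by fun_prop)
    exact LS.mul (LS.lt01 (by fun_prop) (by fun_prop))
      (LS.mul (LS.lt01 (by fun_prop) (LS.log2 h1)) (LS.eq01 (LS.dig (by fun_prop) h1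
        (by fun_prop)) (by fun_prop)))
  · intro u
    have hmem : u ∈ {u | ∃ (i : ℕ) (w : List Bool), u = List.replicate i true ++ false :: w ∧
        (wd (V (num w)))[i]? = some b} ↔ ∃ i w, u = cd i w ∧ (wd (V (num w)))[i]? = some b :=
      Iff.rfl
    rw [hmem]
    by_cases h : l1 (num u) < u.length
    · obtain ⟨n, d, rfl⟩ := (l1_lt_iff u).1 h
      have e1 : lt01 (l1 (num (cd n d))) (Nat.log 2 (num (cd n d))) = 1 := by
        rw [log_num, lt01, if_pos h]
      have e2 : (∃ i w, cd n d = cd i w ∧ (wd (V (num w)))[i]? = some b) ↔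
          (wd (V (num d)))[n]? = some b := by
        constructor
        · rintro ⟨i, w, h1, h2⟩
          have h3 : n = i := by rw [← l1_cd n d, h1, l1_cd]
          have h4 : d = w := num_inj (by rw [← rst_cd n d, h1, rst_cd])
          rw [h3, h4]
          exact h2
        · intro h1
          exact ⟨n, d, rfl, h1⟩
      rw [e2, getElem_wd, e1, one_mul, l1_cd, rst_cd]
      by_cases h5 : n < Nat.log 2 (V (num d))
      · by_cases h6 : dig 2 (V (num d)) n = b.toNat
        · simp [lt01, eq01, h5, h6]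
        · simp [lt01, eq01, h5, h6]
      · simp [lt01, h5]
    · have e1 : lt01 (l1 (num u)) (Nat.log 2 (num u)) = 0 := by
        rw [log_num, lt01, if_neg h]
      rw [e1, zero_mul]
      constructor
      · rintro ⟨i, w, h1, -⟩
        exact absurd ((l1_lt_iff u).2 ⟨i, w, h1⟩) h
      · intro h1
        exact absurd rfl h1

end Pool.Agent.Helper92.KR
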