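import Pool.Agent.Helper92.KR.Hub2
import Pool.Agent.Helper92.RE.Good
import Pool.Agent.Helper92.RE.TmW

/-!
# Programs of random access machines and Turing machines
-/

namespace Pool.Agent.Helper92.KR

open Pool.Agent.Helper65.LinSpace Pool.Agent.Helper78.Mpc
open Pool.Agent.Helper65.OH (OneHead)
open Pool.Agent.Helper20.MH (MultiHead)
open Pool.Agent.Helper81.Sus2 (Decomp NBM)
open Pool.Agent.Helper81.RP (Ins)
open Pool.Agent.Helper92.RE
open Pool.Agent.Helper31.TMS (stW_head)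

/-- A decompressor. -/
noncomputable def nilE : Decomp := ⟨fun _ => [], fun _ => [],
  Pool.Agent.Helper92.RECT.linComp_nil, Pool.Agent.Helper92.RECT.linComp_nil⟩

section

variable {c : ℕ} {D : LD} {F : List Bool → List Bool} {b : ℕ}

/-- Programs of random access machines on the words `F w` and `y`. -/
theorem sim_ram (hc : 0 < c) (hF : D.Is F) (hlen : ∀ w, (F w).length ≤ b * (w.length + 1))
    (hle : ∀ w, w.length ≤ (F w).length) (P : List Ins) (C : ℝ) :
    Sim c (fun w y => ∃ t, Pool.Agent.Helper81.RP.AcceptsAt P (F w) y t)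
      fun w y => Fast P C (F w) y := by
  obtain ⟨C', n₁, h3⟩ := good_of_fast hF hlen hle P nilE hc C
  refine ⟨_, _, hub_nbm c (machL D P) nilE C', ?_, ?_, n₁, fun w y hw _ h => h3 w y hw h⟩
  · rintro w y ⟨g, r, h⟩
    obtain ⟨t, _, ht⟩ := (accepts_iff hF P w y g r).1 h
    exact ⟨t, ht⟩
  · rintro w y ⟨t, s, _, h, -⟩
    exact ⟨fun _ => false, _, (accepts_iff hF P w y _ _).2 ⟨t, rfl, h⟩⟩

/-- Programs of random access machines within the bounds of `Within`. -/
theorem sim_prog (hc : 0 < c) (P : List Ins) (E : Decomp) (C : ℝ) :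
    Sim c (fun w y => ∃ t, Pool.Agent.Helper81.RP.AcceptsAt P w y t)
      fun w y => Pool.Agent.Helper81.RP.Within P E c C w y := by
  obtain ⟨C', n₁, h3⟩ := Pool.Agent.Helper81.RP.good_of_within P E hc C
  refine ⟨_, _, hub_nbm c (Pool.Agent.Helper81.RP.mach P) E C', ?_, ?_, n₁,
    fun w y hw _ h => h3 w y hw h⟩
  · rintro w y ⟨g, r, h⟩
    obtain ⟨t, _, ht⟩ := (Pool.Agent.Helper81.RP.accepts_iff P w y g r).1 h
    exact ⟨t, ht⟩
  · rintro w y ⟨t, s, _, _, _, h, -⟩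
    exact ⟨fun _ => false, _, (Pool.Agent.Helper81.RP.accepts_iff P w y _ _).2 ⟨t, rfl, h⟩⟩

/-- Turing machines with `k` work tapes on the words `F w y`. -/
theorem sim_tm {k : ℕ} (hk : 0 < k) (hF : D.Is F)
    (hlen : ∀ w, (F w).length ≤ b * (w.length + 1)) (hle : ∀ w, w.length ≤ (F w).length)
    (M : TM k) (C : ℝ) :
    Sim c (fun w y => ∃ t, Pool.Agent.Helper31.TMS.AcceptsAt M (F w ++ y) t)
      fun w y => InTime M (fun n => C * ((n : ℝ) + 1) ^ (2 : ℝ) /
        ((Nat.log 2 n : ℝ) + 1) ^ 5) (F w ++ y) := by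
  obtain ⟨code, hcode, hb⟩ := exists_code M
  obtain ⟨A, hA⟩ := exists_machL D M hcode
  obtain ⟨C', h⟩ := within_multi hb hA hF hlen hle nilE c (4 * c) C
  refine ⟨_, _, hub_mh c one_pos hk A nilE C', ?_, ?_, 0, fun w y _ hy hG => h w y hy hG⟩
  · rintro w y ⟨t, ht⟩
    have h3 : (A.conf w y t).q.head? = some true := ht
    rcases le_or_gt t (w.length + 1) with h4 | h4
    · rw [(sim_cnt hb hA w y h4).1] at h3
      split_ifs at h3 <;> rw [stW_head] at h3 <;> exact absurd (Option.some.inj h3) (by simp)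
    · obtain ⟨u, rfl⟩ : ∃ u, t = w.length + 1 + u := ⟨t - (w.length + 1), by omega⟩
      obtain ⟨⟨f, d, e1, e2⟩, -⟩ := simL hb hA hF w y u
      rw [e1, stW_head] at h3
      obtain ⟨v, -, hv⟩ := e2.1 (Option.some.inj h3)
      exact ⟨v, hv⟩
  · rintro w y ⟨t, ht, -⟩
    refine ⟨w.length + 1 + (t + 1), ?_⟩
    obtain ⟨⟨f, d, e1, e2⟩, -⟩ := simL hb hA hF w y (t + 1)
    show (A.conf w y (w.length + 1 + (t + 1))).q.head? = some true
    rw [e1, stW_head, e2.2 ⟨t, rfl, ht⟩]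

/-- Turing machines with one work tape on the words `F w y`. -/
theorem sim_tm1 (hF : D.Is F)
    (hlen : ∀ w, (F w).length ≤ b * (w.length + 1)) (hle : ∀ w, w.length ≤ (F w).length)
    (M : TM 1) (C : ℝ) :
    Sim c (fun w y => ∃ t, Pool.Agent.Helper31.TMS.AcceptsAt M (F w ++ y) t)
      fun w y => InTime M (fun n => C * ((n : ℝ) + 1) ^ ((5 : ℝ) / 2) /
        ((Nat.log 2 n : ℝ) + 1) ^ 6) (F w ++ y) := by
  obtain ⟨code, hcode, hb⟩ := exists_code M
  obtain ⟨A, hA⟩ := exists_machL1 D M hcode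
  obtain ⟨C', h⟩ := within_one hb hA hF hlen hle nilE c (4 * c) C
  refine ⟨_, _, hub_oh c one_pos A nilE C', ?_, ?_, 0, fun w y _ hy hG => h w y hy hG⟩
  · rintro w y ⟨t, ht⟩
    have h3 : (A.conf w y t).q.head? = some true := ht
    rcases le_or_gt t (w.length + 1) with h4 | h4
    · rw [(sim_cnt1 hb hA w y h4).1] at h3
      split_ifs at h3 <;> rw [stW_head] at h3 <;> exact absurd (Option.some.inj h3) (by simp)
    · obtain ⟨u, rfl⟩ : ∃ u, t = w.length + 1 + u := ⟨t - (w.length + 1), by omega⟩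
      obtain ⟨⟨f, d, e1, e2⟩, -⟩ := simL1 hb hA hF w y u
      rw [e1, stW_head] at h3
      obtain ⟨v, -, hv⟩ := e2.1 (Option.some.inj h3)
      exact ⟨v, hv⟩
  · rintro w y ⟨t, ht, -⟩
    refine ⟨w.length + 1 + (t + 1), ?_⟩
    obtain ⟨⟨f, d, e1, e2⟩, -⟩ := simL1 hb hA hF w y (t + 1)
    show (A.conf w y (w.length + 1 + (t + 1))).q.head? = some true
    rw [e1, stW_head, e2.2 ⟨t, rfl, ht⟩]

end

end Pool.Agent.Helper92.KR
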