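import Pool.Agent.Helper92.KR.Net

/-!
# Random words: programs of random access machines and Turing machines
-/

namespace Pool.Agent.Helper92.KR

open Pool.Agent.Helper65.LinSpace Pool.Agent.Helper78.Mpc
open Pool.Agent.Helper81.RP (Ins)
open Pool.Agent.Helper81.Gen4 (Q)
open Pool.Agent.Helper65.HC (Circ)
open Pool.Agent.Helper92.RE

/-- The words `w` themselves. -/
def idLD : LD where
  len := fun n => n
  pos := fun _ u => u
  lt := fun _ _ a => a
  ls_len := by fun_prop
  ls_pos := by fun_prop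
  ls_lt := by fun_prop

theorem idLD_is : idLD.Is fun w => w := fun _ => ⟨rfl, fun _ => rfl⟩

/-- The number of the words of length less than `m`. -/
theorem ncard_lt (m : ℕ) : {d : List Bool | d.length < m}.ncard < 2 ^ m := by
  induction m with
  | zero =>
    have : {d : List Bool | d.length < 0} = ∅ := by
      ext d
      simp
    rw [this, Set.ncard_empty]
    norm_num
  | succ m ih =>
    have h1 : {d : List Bool | d.length < m + 1} =
        {d : List Bool | d.length < m} ∪ {d : List Bool | d.length = m} := by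
      ext d
      simp only [Set.mem_union, Set.mem_ofPred_eq]
      omega
    rw [h1]
    refine (Set.ncard_union_le _ _).trans_lt ?_
    rw [Pool.Agent.Helper81.Gen4.ncard_len, pow_succ]
    omega

/-- Most words are random. -/
theorem ncard_rand (D : List Bool → List Bool) (g : ℚ) (n : ℕ) :
    ({w : List Bool | w.length = n ∧ w ∉ Rand D g}.ncard : ℝ) < 2 ^ ((g : ℝ) * n + 1) := by
  rcases le_or_gt g 0 with hg | hg
  · have h1 : {w : List Bool | w.length = n ∧ w ∉ Rand D g} = ∅ := by
      ext w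
      simp only [Set.mem_ofPred_eq, Set.mem_empty_iff_false, iff_false, not_and, not_not]
      intro _ d _
      have h2 : g * (w.length : ℚ) ≤ 0 := mul_nonpos_of_nonpos_of_nonneg hg (Nat.cast_nonneg _)
      exact h2.trans (Nat.cast_nonneg _)
    rw [h1, Set.ncard_empty, Nat.cast_zero]
    positivity
  · set m := ⌈g * n⌉₊ with hm
    have h1 : {w : List Bool | w.length = n ∧ w ∉ Rand D g} ⊆
        (fun d => D (cd n d)) '' {d : List Bool | d.length < m} := by
      rintro w ⟨hw, h⟩
      simp only [Rand, Set.mem_ofPred_eq, not_forall, not_le] at h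
      obtain ⟨d, hd, h2⟩ := h
      subst hw
      exact ⟨d, Nat.lt_ceil.2 h2, hd⟩
    have hfin : {d : List Bool | d.length < m}.Finite := List.finite_length_lt Bool m
    have h2 : {w : List Bool | w.length = n ∧ w ∉ Rand D g}.ncard < 2 ^ m :=
      ((Set.ncard_le_ncard h1 (hfin.image _)).trans (Set.ncard_image_le hfin)).trans_lt
        (ncard_lt m)
    have h3 : (m : ℝ) < (g : ℝ) * n + 1 := by
      have : (m : ℚ) < g * n + 1 := Nat.ceil_lt_add_one (by positivity)
      exact_mod_cast this
    calc ({w : List Bool | w.length = n ∧ w ∉ Rand D g}.ncard : ℝ) < 2 ^ m := by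
          exact_mod_cast h2
      _ = 2 ^ (m : ℝ) := (Real.rpow_natCast 2 m).symm
      _ ≤ 2 ^ ((g : ℝ) * n + 1) := Real.rpow_le_rpow_of_exponent_le (by norm_num) h3.le

/-- **Random words**, for programs of random access machines, Turing machines, circuits and cellular
automata. -/
theorem random_words (c : ℕ) (hc : 0 < c) :
    ∃ D₀ : List Bool → List Bool, LinComp D₀ ∧ ∀ D : List Bool → List Bool, LinComp D →
      (∃ b : ℕ, ∀ w k, Desc D₀ w k → Desc D w (k + b)) →
      (∀ g : ℚ, DLINSPACE (Rand D g) ∧ ∀ n : ℕ,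
        ({w : List Bool | w.length = n ∧ w ∉ Rand D g}.ncard : ℝ) < 2 ^ ((g : ℝ) * n + 1)) ∧
      (∀ (P : List Ins) (C : ℝ),
        KHard D (fun w α => ∃ t, Pool.Agent.Helper81.RP.AcceptsAt P w α t)
          (fun w α => Fast P C w α) ∧
        KHard D (fun w α => Q (c * w.length) fun v =>
            ∃ t, Pool.Agent.Helper81.RP.AcceptsAt P w (α ++ v) t)
          fun w α => Q (c * w.length) fun v => Fast P C w (α ++ v)) ∧
      (∀ (k : ℕ), 0 < k → ∀ (M : TM k) (C : ℝ),
        KHard D (fun w α => ∃ t, Pool.Agent.Helper31.TMS.AcceptsAt M (w ++ α) t)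
          (fun w α => InTime M (fun n => C * ((n : ℝ) + 1) ^ (2 : ℝ) /
            ((Nat.log 2 n : ℝ) + 1) ^ 5) (w ++ α)) ∧
        KHard D (fun w α => Q (c * w.length) fun v =>
            ∃ t, Pool.Agent.Helper31.TMS.AcceptsAt M (w ++ (α ++ v)) t)
          fun w α => Q (c * w.length) fun v =>
            InTime M (fun n => C * ((n : ℝ) + 1) ^ (2 : ℝ) /
              ((Nat.log 2 n : ℝ) + 1) ^ 5) (w ++ (α ++ v))) ∧
      (∀ (M : TM 1) (C : ℝ),
        KHard D (fun w α => ∃ t, Pool.Agent.Helper31.TMS.AcceptsAt M (w ++ α) t)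
          (fun w α => InTime M (fun n => C * ((n : ℝ) + 1) ^ ((5 : ℝ) / 2) /
            ((Nat.log 2 n : ℝ) + 1) ^ 6) (w ++ α)) ∧
        KHard D (fun w α => Q (c * w.length) fun v =>
            ∃ t, Pool.Agent.Helper31.TMS.AcceptsAt M (w ++ (α ++ v)) t)
          fun w α => Q (c * w.length) fun v =>
            InTime M (fun n => C * ((n : ℝ) + 1) ^ ((5 : ℝ) / 2) /
              ((Nat.log 2 n : ℝ) + 1) ^ 6) (w ++ (α ++ v))) ∧
      (∀ (A : Circ) (C : ℝ),
        KHard D (fun w α => ∃ r, A.AcceptsAt w α r) (fun w α => A.Within C w α) ∧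
        KHard D (fun w α => Q (c * w.length) fun v => ∃ r, A.AcceptsAt w (α ++ v) r)
          fun w α => Q (c * w.length) fun v => A.Within C w (α ++ v)) ∧
      ∀ (d : ℕ) [NeZero d] (A : CA d) (C : ℝ),
        KHard D (fun w α => ∃ t, A.config w α t 0 ∈ A.accept) (fun w α => Quick A C w α) ∧
        KHard D (fun w α => Q (c * w.length) fun v => ∃ t, A.config w (α ++ v) t 0 ∈ A.accept)
          fun w α => Q (c * w.length) fun v => Quick A C w (α ++ v) := by
  obtain ⟨D₀, h1, -, h2⟩ := sim_kr c hc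
  have hlen : ∀ w : List Bool, w.length ≤ 1 * (w.length + 1) := fun w => by omega
  refine ⟨D₀, h1, fun D hD hb => ?_⟩
  obtain ⟨h3, h4⟩ := h2 D hD hb
  refine ⟨fun g => ⟨h3 g, ncard_rand D g⟩, fun P C => ?_, fun k hk M C => ?_, fun M C => ?_,
    fun A C => ?_, fun d _ A C => ?_⟩
  · exact (h4 _ _ (sim_ram hc idLD_is hlen (fun _ => le_rfl) P C)).symm
  · exact (h4 _ _ (sim_tm hk idLD_is hlen (fun _ => le_rfl) M C)).symm
  · exact (h4 _ _ (sim_tm1 idLD_is hlen (fun _ => le_rfl) M C)).symm
  · exact (h4 _ _ (sim_circ loc_id (fun _ => le_rfl) A C)).symm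
  · exact (h4 _ _ (sim_ca loc_id (fun _ => le_rfl) A C)).symm

end Pool.Agent.Helper92.KR
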