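import Pool.Agent.Helper92.KR.Both
import Pool.Agent.Helper31.MHS.Two
import Pool.Agent.Helper31.Gen5.Hard
import Pool.Agent.Helper65.NX.Final

/-!
# Four models of computation at the same time, with and without guessed letters
-/

namespace Pool.Agent.Helper92.KR

open Pool.Agent.Helper65.LinSpace Pool.Agent.Helper78.Mpc
open Pool.Agent.Helper65.OH (OneHead)
open Pool.Agent.Helper20.MH (MultiHead)
open Pool.Agent.Helper81.Sus2 (Decomp NBM)
open Pool.Agent.Helper81.Gen4 (Q)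
open Pool.Agent.Helper31.Gen5 (Hard q_hard)
open Pool.Agent.Helper31.MHS (drp drp_num ls_drp q_take NBW accW theLSA theEXG)

/-- A model of computation, used with guessed letters (even codes) or without them (odd codes). -/
def par (acc : ℕ → ℕ → ℕ → ℕ → ℕ) (c u x y T : ℕ) : ℕ :=
  acc (u / 2) x (ifz (u % 2) y (drp (3 * c) x y)) T

theorem LS.par {acc : ℕ → ℕ → ℕ → ℕ → ℕ}
    (hacc : LS (fun z : ℕ × ℕ × ℕ × ℕ => acc z.1 z.2.1 z.2.2.1 z.2.2.2)) (c : ℕ) :
    LS (fun z : ℕ × ℕ × ℕ × ℕ => par acc c z.1 z.2.1 z.2.2.1 z.2.2.2) := by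
  have h1 : LS (fun z : ℕ × ℕ × ℕ × ℕ => ifz (z.1 % 2) z.2.2.1 (drp (3 * c) z.2.1 z.2.2.1)) :=
    LS.ifz (by fun_prop) (by fun_prop)
      (LS.comp (g := fun z : ℕ × ℕ => drp (3 * c) z.1 z.2)
        (f := fun z : ℕ × ℕ × ℕ × ℕ => (z.2.1, z.2.2.1)) (ls_drp (3 * c)) (by fun_prop))
  exact LS.comp (g := fun z : ℕ × ℕ × ℕ × ℕ => acc z.1 z.2.1 z.2.2.1 z.2.2.2)
    (f := fun z : ℕ × ℕ × ℕ × ℕ => (z.1 / 2, z.2.1,
      ifz (z.1 % 2) z.2.2.1 (drp (3 * c) z.2.1 z.2.2.1), z.2.2.2)) hacc (by fun_prop)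

theorem Coded.even {acc : ℕ → ℕ → ℕ → ℕ → ℕ} {N : ℕ → ℕ} {Acc Good : List Bool → List Bool → Prop}
    (h : Coded acc N Acc Good) (c : ℕ) : Coded (par acc c) N Acc Good := by
  obtain ⟨e, n₀, he⟩ := h
  refine ⟨2 * e, n₀, fun w y hw => ?_⟩
  have e1 : 2 * e / 2 = e := by omega
  have e2 : 2 * e % 2 = 0 := by omega
  simp only [par, e1, e2, ifz, if_true]
  exact he w y hw

theorem Coded.odd {acc : ℕ → ℕ → ℕ → ℕ → ℕ} {N : ℕ → ℕ} {Acc Good : List Bool → List Bool → Prop}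
    (h : Coded acc N Acc Good) (c : ℕ) : Coded (par acc c) N
      (fun w y => Acc w (y.take (y.length - 3 * c * w.length)))
      (fun w y => Good w (y.take (y.length - 3 * c * w.length))) := by
  obtain ⟨e, n₀, he⟩ := h
  refine ⟨2 * e + 1, n₀, fun w y hw => ?_⟩
  have e1 : (2 * e + 1) / 2 = e := by omega
  have e2 : (2 * e + 1) % 2 = 1 := by omega
  simp only [par, e1, e2, ifz, one_ne_zero, if_false, drp_num]
  exact he w _ hw

/-- The number of the certificates of three models. -/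
noncomputable def hubN3 (c x : ℕ) : ℕ :=
  Pool.Agent.Helper81.Sus2.NF c x + Pool.Agent.Helper92.RECT.NF x + NBW x

/-- Three models together. -/
noncomputable def hubA3 (c : ℕ) : ℕ → ℕ → ℕ → ℕ → ℕ :=
  acc2 (acc2 (Pool.Agent.Helper81.Sus3.acc Pool.Agent.Helper81.Tok3.theSim c)
    (Pool.Agent.Helper92.RECT.acc Pool.Agent.Helper65.OH.simP c)
    (Pool.Agent.Helper81.Sus2.NF c) Pool.Agent.Helper92.RECT.NF)
    (accW Pool.Agent.Helper65.RT.theSim c)
    (fun x => Pool.Agent.Helper81.Sus2.NF c x + Pool.Agent.Helper92.RECT.NF x) NBW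

/-- The number of the certificates. -/
noncomputable def hubN (c x : ℕ) : ℕ := hubN3 c x + Pool.Agent.Helper65.NX.NF x

/-- The four models together. -/
noncomputable def hubA (c : ℕ) : ℕ → ℕ → ℕ → ℕ → ℕ :=
  acc2 (hubA3 c) (Pool.Agent.Helper65.NX.accF c) (hubN3 c) Pool.Agent.Helper65.NX.NF

theorem LS.hubN3 (c : ℕ) : LS (hubN3 c) :=
  LS.add (LS.add (Pool.Agent.Helper81.Sus2.LS.NF c) Pool.Agent.Helper92.RECT.LS.NF) theLSA.2

theorem LS.hubN (c : ℕ) : LS (hubN c) :=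
  LS.add (LS.hubN3 c) (Pool.Agent.Helper65.NX.lsk_all c).2

theorem LS.hubA3 (c : ℕ) :
    LS (fun z : ℕ × ℕ × ℕ × ℕ => hubA3 c z.1 z.2.1 z.2.2.1 z.2.2.2) :=
  LS.acc2 (LS.acc2 (Pool.Agent.Helper81.Sus3.LS.acc Pool.Agent.Helper81.Tok3.theSim
      Pool.Agent.Helper81.Sus3.parts.lsw Pool.Agent.Helper81.Sus3.parts.lse
      Pool.Agent.Helper81.Sus3.parts.prm c)
      (Pool.Agent.Helper92.RECT.LS.acc Pool.Agent.Helper65.OH.simP
        Pool.Agent.Helper92.RECT.parts c)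
      (Pool.Agent.Helper81.Sus2.LS.NF c) Pool.Agent.Helper92.RECT.LS.NF)
    (theLSA.1 Pool.Agent.Helper65.RT.theSim c)
    (LS.add (Pool.Agent.Helper81.Sus2.LS.NF c) Pool.Agent.Helper92.RECT.LS.NF) theLSA.2

theorem LS.hubA (c : ℕ) :
    LS (fun z : ℕ × ℕ × ℕ × ℕ => hubA c z.1 z.2.1 z.2.2.1 z.2.2.2) :=
  LS.acc2 (LS.hubA3 c) (Pool.Agent.Helper65.NX.lsk_all c).1 (LS.hubN3 c)
    (Pool.Agent.Helper65.NX.lsk_all c).2

/-- The machines with a code. -/
def Hub (c : ℕ) (Acc Good : List Bool → List Bool → Prop) : Prop :=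
  (∀ w y, Good w y → Acc w y) ∧ Coded (hubA c) (hubN c) Acc Good

theorem hub_nbm (c : ℕ) (A : NBM) (E : Decomp) (C : ℝ) :
    Hub c (fun w y => ∃ g r, A.AcceptsAt w y g r) (A.Good E c C) := by
  refine ⟨?_, Coded.left (Coded.left (Coded.left (Pool.Agent.Helper81.Sus3.exists_good
    Pool.Agent.Helper81.Tok3.theSim Pool.Agent.Helper81.Sus3.parts c A E C)))⟩
  rintro w y ⟨g, r, _, _, _, _, _, _, _, _, _, h, -⟩
  exact ⟨g, r, h⟩

theorem hub_oh (c : ℕ) {d : ℕ} (hd : 0 < d) (A : OneHead d) (E : Decomp) (C : ℝ) :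
    Hub c (fun w y => ∃ r, A.AcceptsAt w y r) (Pool.Agent.Helper92.RECT.Within A E c C) := by
  refine ⟨?_, Coded.left (Coded.left (Coded.right (Pool.Agent.Helper92.RECT.exists_good
    Pool.Agent.Helper65.OH.simP Pool.Agent.Helper92.RECT.parts c hd A E C)))⟩
  rintro w y ⟨r, _, _, _, _, _, _, _, _, h, -⟩
  exact ⟨r, h⟩

theorem hub_mh (c : ℕ) {d K : ℕ} (hd : 0 < d) (hK : 0 < K) (A : MultiHead d K) (E : Decomp)
    (C : ℝ) :
    Hub c (fun w y => ∃ t, A.AcceptsAt w y t) (Pool.Agent.Helper31.MHS.Within A E c C) := by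
  refine ⟨?_, Coded.left (Coded.right (theEXG Pool.Agent.Helper65.RT.theSim c hd hK A E C))⟩
  rintro w y ⟨t, _, _, _, _, h, -⟩
  exact ⟨t, h⟩

theorem hub_net (c : ℕ) (A : Pool.Agent.Helper65.NX.Net) (E : Decomp) (C : ℝ) :
    Hub c (fun w y => ∃ p r, A.AcceptsAt w y p r) (A.Within E c C) := by
  refine ⟨?_, Coded.right (Pool.Agent.Helper65.NX.fin_all c A E C)⟩
  rintro w y ⟨p, r, _, _, _, _, _, h, -⟩
  exact ⟨p, r, h⟩

/-- **Hardness**, for all machines with a code, with and without guessed letters. -/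
theorem hub_hard (c : ℕ) (hc : 0 < c) :
    ∃ L : Set (List Bool), DLINSPACE L ∧
      ∀ Acc Good : List Bool → List Bool → Prop, Hub c Acc Good →
        Hard L c (fun w α => Q (c * w.length) fun v => Acc w (α ++ v))
          (fun w α => Q (c * w.length) fun v => Good w (α ++ v)) ∧ Hard L c Acc Good := by
  obtain ⟨L, h1, h2⟩ := q_hard (par (hubA c) c) (hubN c) (LS.par (LS.hubA c) c) (LS.hubN c) c c hc
  refine ⟨L, h1, fun Acc Good h => ⟨h2 Acc Good (h.2.even c), ?_⟩⟩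
  exact (h2 _ _ (h.2.odd c)).mono (fun w α h => (q_take c w α fun y => Acc w y).1 h)
    (fun w α h => (q_take c w α fun y => Good w y).2 h)

/-- **Random words**, for all machines with a code, with and without guessed letters. -/
theorem hub_kr (c : ℕ) :
    ∃ D₀ : List Bool → List Bool, LinComp D₀ ∧ (∃ b : ℕ, ∀ w, Desc D₀ w (w.length + b)) ∧
      ∀ D : List Bool → List Bool, LinComp D →
      (∃ b : ℕ, ∀ w k, Desc D₀ w k → Desc D w (k + b)) →
      (∀ g : ℚ, DLINSPACE (Rand D g)) ∧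
      ∀ Acc Good : List Bool → List Bool → Prop, Hub c Acc Good →
        KHard D (fun w α => Q (c * w.length) fun v => Acc w (α ++ v))
          (fun w α => Q (c * w.length) fun v => Good w (α ++ v)) ∧ KHard D Acc Good := by
  obtain ⟨D₀, h1, h2, h3⟩ := kr_all (par (hubA c) c) (hubN c) (LS.par (LS.hubA c) c) (LS.hubN c) c
  refine ⟨D₀, h1, h2, fun D hD hb => ?_⟩
  obtain ⟨h4, h5⟩ := h3 D hD hb
  refine ⟨h4, fun Acc Good h => ⟨h5 Acc Good h.1 (h.2.even c), ?_⟩⟩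
  exact (h5 _ _ (fun w y => h.1 w _) (h.2.odd c)).mono'
    (fun w α h => (q_take c w α fun y => Acc w y).1 h)
    (fun w α h => (q_take c w α fun y => Good w y).2 h)

end Pool.Agent.Helper92.KR
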