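import Pool.Agent.Helper92.KR.Hub
import Pool.Agent.Helper92.RE.Adv

/-!
# Models of computation which are simulated by machines with a code
-/

namespace Pool.Agent.Helper92.KR

open Pool.Agent.Helper65.LinSpace Pool.Agent.Helper78.Mpc
open Pool.Agent.Helper81.Gen4 (Q Q_mono)
open Pool.Agent.Helper31.Gen5 (Hard)
open Pool.Agent.Helper92.RE (hard_adv)

/-- Computations which are simulated by a machine with a code, for long words `w` and for words `y` of at
most `4 c |w|` letters. -/
def Sim (c : ℕ) (Acc Good : List Bool → List Bool → Prop) : Prop :=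
  ∃ Acc₀ Good₀ : List Bool → List Bool → Prop, Hub c Acc₀ Good₀ ∧
    (∀ w y, Acc₀ w y → Acc w y) ∧ (∀ w y, Good w y → Acc₀ w y) ∧
    ∃ n₁ : ℕ, ∀ w y : List Bool, n₁ ≤ w.length → y.length ≤ 4 * c * w.length →
      Good w y → Good₀ w y

/-- **Hardness**, with and without guessed letters. -/
theorem sim_hard (c : ℕ) (hc : 0 < c) :
    ∃ L : Set (List Bool), DLINSPACE L ∧
      ∀ Acc Good : List Bool → List Bool → Prop, Sim c Acc Good →
        Hard L c (fun w α => Q (c * w.length) fun v => Acc w (α ++ v))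
          (fun w α => Q (c * w.length) fun v => Good w (α ++ v)) ∧ Hard L c Acc Good := by
  obtain ⟨L, h1, h2⟩ := hub_hard c hc
  refine ⟨L, h1, fun Acc Good ⟨Acc₀, Good₀, h3, h4, _, n₁, h5⟩ => ?_⟩
  obtain ⟨h6, h7⟩ := h2 Acc₀ Good₀ h3
  constructor
  · refine (hard_adv hc h6 n₁ (Good' := fun w α => Q (c * w.length) fun v => Good w (α ++ v))
      ?_).mono ?_ fun w α h => h
    · intro w α hw hα h
      refine Q_mono (fun x u y hx hu hy h8 => h5 w _ hw ?_ h8) h
      simp only [List.length_append, hx, hu, hy]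
      have : 4 * c * w.length = c * w.length + (c * w.length + (c * w.length + c * w.length)) := by
        ring
      omega
    · exact fun w α h => Q_mono (fun x u y _ _ _ h8 => h4 w _ h8) h
  · refine (hard_adv hc h7 n₁ (Good' := Good) ?_).mono (fun w α h => h4 w α h) fun w α h => h
    intro w α hw hα h
    refine h5 w α hw (hα.trans ?_) h
    exact Nat.mul_le_mul_right _ (by omega)

/-- **Random words**, with and without guessed letters. -/
theorem sim_kr (c : ℕ) (hc : 0 < c) :
    ∃ D₀ : List Bool → List Bool, LinComp D₀ ∧ (∃ b : ℕ, ∀ w, Desc D₀ w (w.length + b)) ∧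
      ∀ D : List Bool → List Bool, LinComp D →
      (∃ b : ℕ, ∀ w k, Desc D₀ w k → Desc D w (k + b)) →
      (∀ g : ℚ, DLINSPACE (Rand D g)) ∧
      ∀ Acc Good : List Bool → List Bool → Prop, Sim c Acc Good →
        KHard D (fun w α => Q (c * w.length) fun v => Acc w (α ++ v))
          (fun w α => Q (c * w.length) fun v => Good w (α ++ v)) ∧ KHard D Acc Good := by
  obtain ⟨D₀, h1, ⟨b₀, hb₀⟩, h2⟩ := hub_kr c
  refine ⟨D₀, h1, ⟨b₀, hb₀⟩, fun D hD hb => ?_⟩
  obtain ⟨g1, g2⟩ := h2 D hD hb
  have hself : ∃ b : ℕ, ∀ w, Desc D w (w.length + b) := by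
    obtain ⟨b, hb⟩ := hb
    refine ⟨b₀ + b, fun w => ?_⟩
    rw [← add_assoc]
    exact hb w _ (hb₀ w)
  refine ⟨g1, fun Acc Good ⟨Acc₀, Good₀, h3, h4, h9, n₁, h5⟩ => ?_⟩
  obtain ⟨h6, h7⟩ := g2 Acc₀ Good₀ h3
  constructor
  · refine (h6.adv hself hc n₁ (Good' := fun w α => Q (c * w.length) fun v => Good w (α ++ v))
      ?_ ?_).mono' ?_ fun w α h => h
    · exact fun w α h => Q_mono (fun x u y _ _ _ h8 => h9 w _ h8) h
    · intro w α hw hα h
      refine Q_mono (fun x u y hx hu hy h8 => h5 w _ hw ?_ h8) h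
      simp only [List.length_append, hx, hu, hy]
      have : 4 * c * w.length = c * w.length + (c * w.length + (c * w.length + c * w.length)) := by
        ring
      omega
    · exact fun w α h => Q_mono (fun x u y _ _ _ h8 => h4 w _ h8) h
  · refine (h7.adv hself hc n₁ (Good' := Good) h9 ?_).mono' (fun w α h => h4 w α h)
      fun w α h => h
    intro w α hw hα h
    refine h5 w α hw (hα.trans ?_) h
    exact Nat.mul_le_mul_right _ (by omega)

end Pool.Agent.Helper92.KR
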