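import Pool.Agent.Helper92.KR.Fam
import Pool.Agent.Helper92.RECTT.Main
import Pool.Agent.Helper81.Sus3.Final

/-!
# Random words: machines with messages, machines with one head, and Turing machines with one work tape
-/

namespace Pool.Agent.Helper92.KR

open Pool.Agent.Helper65.LinSpace Pool.Agent.Helper78.Mpc
open Pool.Agent.Helper65.OH (OneHead)
open Pool.Agent.Helper31.TMS (AcceptsAt stW_head)
open Pool.Agent.Helper81.Sus2 (Decomp NBM)
open Pool.Agent.Helper81.Gen4 (Q)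
open Pool.Agent.Helper92.RECT (Within)
open Pool.Agent.Helper92.RECTT (Busy)

/-- The Turing machine accepts `w` in time `T` with `T (⌊log₂ n⌋ + 1) ^ 6 ≤ C (n + 1) ^ (5 / 2)`. -/
def FastTM (M : TM 1) (C : ℝ) (w : List Bool) : Prop :=
  ∃ t, AcceptsAt M w t ∧ (t : ℝ) * ((Nat.log 2 w.length : ℝ) + 1) ^ 6 ≤
    C * ((w.length : ℝ) + 1) ^ ((5 : ℝ) / 2)

/-- A Turing machine has an injective code of the symbols in which the blank symbol has the empty
code. -/
theorem exists_code {k : ℕ} (M : TM k) : ∃ code : M.Sym → List Bool, Function.Injective code ∧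
    code M.blank = [] := by
  classical
  have := M.finSym
  obtain ⟨q, ⟨f⟩⟩ := Finite.exists_equiv_fin M.Sym
  refine ⟨fun s => if s = M.blank then [] else List.replicate ((f s : ℕ) + 1) true, ?_, if_pos rfl⟩
  intro s t h
  have h' : (if s = M.blank then [] else List.replicate ((f s : ℕ) + 1) true) =
    if t = M.blank then [] else List.replicate ((f t : ℕ) + 1) true := h
  by_cases hs : s = M.blank <;> by_cases ht : t = M.blank
  · rw [hs, ht]
  · rw [if_pos hs, if_neg ht] at h'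
    exact absurd (congrArg List.length h') (by simp)
  · rw [if_neg hs, if_pos ht] at h'
    exact absurd (congrArg List.length h') (by simp)
  · rw [if_neg hs, if_neg ht] at h'
    have h1 := congrArg List.length h'
    simp only [List.length_replicate] at h1
    exact f.injective (Fin.ext (by omega))

/-- A fast computation is not busy. -/
theorem not_busy (M : TM 1) (code : M.Sym → List Bool) (E : Decomp) (c : ℕ) (C : ℝ) :
    ∃ K : ℕ, ∀ w, FastTM M C w → ¬Busy M code E c K |C| w := by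
  obtain ⟨K₀, hK₀⟩ := pow_unbounded_of_one_lt |C| (by norm_num : (1 : ℝ) < 2)
  refine ⟨K₀ + 3, fun w ⟨r, hr, hT⟩ hb => ?_⟩
  set n := w.length with hn
  set l := Nat.log 2 n + 1 with hl
  have hl1 : (1 : ℝ) ≤ (Nat.log 2 n : ℝ) + 1 := by
    have : (0 : ℝ) ≤ (Nat.log 2 n : ℝ) := Nat.cast_nonneg _
    linarith
  have hN1 : (1 : ℝ) ≤ (n : ℝ) + 1 := by
    have : (0 : ℝ) ≤ (n : ℝ) := Nat.cast_nonneg _
    linarith
  have hl6 : (0 : ℝ) < ((Nat.log 2 n : ℝ) + 1) ^ 6 := by positivity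
  have hP : (0 : ℝ) ≤ ((n : ℝ) + 1) ^ ((5 : ℝ) / 2) := by positivity
  have hT' : (r : ℝ) * ((Nat.log 2 n : ℝ) + 1) ^ 6 ≤ |C| * ((n : ℝ) + 1) ^ ((5 : ℝ) / 2) :=
    hT.trans (mul_le_mul_of_nonneg_right (le_abs_self C) hP)
  have hr1 : (r : ℝ) ≤ |C| * ((n : ℝ) + 1) ^ ((5 : ℝ) / 2) := by
    refine le_trans ?_ hT'
    exact le_mul_of_one_le_right (Nat.cast_nonneg r) (one_le_pow₀ hl1)
  have hrK : r < 2 ^ ((K₀ + 3) * l) := by
    have e1 : ((n : ℝ) + 1) ^ ((5 : ℝ) / 2) ≤ ((n : ℝ) + 1) ^ 3 := by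
      have := Real.rpow_le_rpow_of_exponent_le hN1 (by norm_num : (5 : ℝ) / 2 ≤ (3 : ℕ))
      rwa [Real.rpow_natCast] at this
    have e2 : ((n : ℝ) + 1) ≤ 2 ^ l := by
      have h1 : n + 1 ≤ 2 ^ l := Nat.lt_pow_succ_log_self (by norm_num) n
      exact_mod_cast h1
    have e3 : ((n : ℝ) + 1) ^ 3 ≤ (2 ^ l) ^ 3 := pow_le_pow_left₀ (by positivity) e2 3
    have e4 : (2 : ℝ) ^ K₀ ≤ 2 ^ (K₀ * l) :=
      pow_le_pow_right₀ (by norm_num) (Nat.le_mul_of_pos_right _ (by omega))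
    have e5 : (r : ℝ) < 2 ^ ((K₀ + 3) * l) := by
      calc (r : ℝ) ≤ |C| * ((n : ℝ) + 1) ^ ((5 : ℝ) / 2) := hr1
        _ ≤ |C| * (2 ^ l) ^ 3 := mul_le_mul_of_nonneg_left (e1.trans e3) (abs_nonneg C)
        _ < 2 ^ K₀ * (2 ^ l) ^ 3 := mul_lt_mul_of_pos_right hK₀ (by positivity)
        _ ≤ 2 ^ (K₀ * l) * (2 ^ l) ^ 3 := mul_le_mul_of_nonneg_right e4 (by positivity)
        _ = 2 ^ ((K₀ + 3) * l) := by
          rw [← pow_mul, ← pow_add]
          congr 1
          ring
    exact_mod_cast e5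
  obtain ⟨t, t', z, z', -, ht', -, -, -, h5⟩ := hb r hrK hr
  have h6 : {u : ℕ | t ≤ u ∧ u < t' ∧ z ≤ (M.run w u).head 0 ∧ (M.run w u).head 0 < z'}.ncard ≤
      r := by
    have h7 : {u : ℕ | t ≤ u ∧ u < t' ∧ z ≤ (M.run w u).head 0 ∧ (M.run w u).head 0 < z'} ⊆
        ((Finset.range r : Finset ℕ) : Set ℕ) := by
      rintro u ⟨-, h8, -⟩
      rw [Finset.mem_coe, Finset.mem_range]
      omega
    refine (Set.ncard_le_ncard h7 (Finset.finite_toSet _)).trans ?_
    rw [Set.ncard_coe_finset, Finset.card_range]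
  rw [div_lt_iff₀ hl6] at h5
  have h7 : (({u : ℕ | t ≤ u ∧ u < t' ∧ z ≤ (M.run w u).head 0 ∧
      (M.run w u).head 0 < z'}.ncard : ℕ) : ℝ) * ((Nat.log 2 n : ℝ) + 1) ^ 6 ≤
      (r : ℝ) * ((Nat.log 2 n : ℝ) + 1) ^ 6 :=
    mul_le_mul_of_nonneg_right (by exact_mod_cast h6) hl6.le
  exact absurd (h5.trans_le (h7.trans hT')) (lt_irrefl _)

/-- **Random words and Turing machines with one work tape.** -/
theorem tm_hard {D : List Bool → List Bool} {c : ℕ}
    (h : ∀ (d : ℕ), 0 < d → ∀ (A : OneHead d) (E : Decomp) (C : ℝ),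
      KHard D (fun w α => ∃ r, A.AcceptsAt w α r) fun w α => Within A E c C w α)
    (M : TM 1) (C : ℝ) :
    KHard D (fun w _ => ∃ t, AcceptsAt M w t) fun w _ => FastTM M C w := by
  obtain ⟨code, hcode, hb⟩ := exists_code M
  let E : Decomp := ⟨fun _ => [], fun _ => [], Pool.Agent.Helper92.RECT.linComp_nil,
    Pool.Agent.Helper92.RECT.linComp_nil⟩
  obtain ⟨K, hK⟩ := not_busy M code E c C
  obtain ⟨A, hA⟩ := Pool.Agent.Helper92.RECTT.exists_mach1 M hcode
  obtain ⟨C₂, hC₂⟩ := Pool.Agent.Helper92.RECTT.within_of hb hA E c K |C|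
  refine (h 1 one_pos A E C₂).nil.mono' ?_ fun w _ hw => hC₂ w (hK w hw)
  rintro w - ⟨t, ht⟩
  obtain ⟨⟨f, d, e1, e2⟩, -⟩ := Pool.Agent.Helper92.RECTT.sim1 hb hA w [] t
  have e3 : (A.conf w [] t).q.head? = some true := ht
  rw [e1, stW_head] at e3
  obtain ⟨u, -, hu⟩ := e2.1 (Option.some.inj e3)
  exact ⟨u, hu⟩

/-- **Random words**, for machines with messages, machines with one head and Turing machines with one
work tape. -/
theorem kr_both (c : ℕ) :
    ∃ D₀ : List Bool → List Bool, LinComp D₀ ∧ ∀ D : List Bool → List Bool, LinComp D →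
      (∃ b : ℕ, ∀ w k, Desc D₀ w k → Desc D w (k + b)) →
      (∀ g : ℚ, DLINSPACE (Rand D g)) ∧
      (∀ (A : NBM) (E : Decomp) (C : ℝ),
        KHard D (fun w α => Q (c * w.length) fun v => ∃ g r, A.AcceptsAt w (α ++ v) g r)
          fun w α => Q (c * w.length) fun v => A.Good E c C w (α ++ v)) ∧
      (∀ (d : ℕ), 0 < d → ∀ (A : OneHead d) (E : Decomp) (C : ℝ),
        KHard D (fun w α => Q (c * w.length) fun v => ∃ r, A.AcceptsAt w (α ++ v) r)
          fun w α => Q (c * w.length) fun v => Within A E c C w (α ++ v)) ∧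
      ∀ (M : TM 1) (C : ℝ), KHard D (fun w _ => ∃ t, AcceptsAt M w t) fun w _ => FastTM M C w := by
  have h1 := Pool.Agent.Helper81.Sus3.LS.acc Pool.Agent.Helper81.Tok3.theSim
    Pool.Agent.Helper81.Sus3.parts.lsw Pool.Agent.Helper81.Sus3.parts.lse
    Pool.Agent.Helper81.Sus3.parts.prm c
  have h2 := Pool.Agent.Helper92.RECTT.ls_accB Pool.Agent.Helper65.OH.simP
    Pool.Agent.Helper92.RECT.parts c
  have n1 := Pool.Agent.Helper81.Sus2.LS.NF c
  have n2 := Pool.Agent.Helper92.RECT.LS.NF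
  obtain ⟨D₀, h3, -, h4⟩ := kr_all _ _ (LS.acc2 h1 h2 n1 n2) (LS.add n1 n2) c
  refine ⟨D₀, h3, fun D hD hb => ?_⟩
  obtain ⟨h5, h6⟩ := h4 D hD hb
  have hOH : ∀ (d : ℕ), 0 < d → ∀ (A : OneHead d) (E : Decomp) (C : ℝ),
      KHard D (fun w α => Q (c * w.length) fun v => ∃ r, A.AcceptsAt w (α ++ v) r)
        (fun w α => Q (c * w.length) fun v => Within A E c C w (α ++ v)) ∧
      KHard D (fun w α => ∃ r, A.AcceptsAt w α r) fun w α => Within A E c C w α := by
    intro d hd A E C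
    obtain ⟨e, n₀, he⟩ := Pool.Agent.Helper92.RECT.exists_good Pool.Agent.Helper65.OH.simP
      Pool.Agent.Helper92.RECT.parts c hd A E C
    constructor
    · refine h6 (fun w y => ∃ r, A.AcceptsAt w y r) (Within A E c C) ?_ (Coded.right
        ⟨2 * e, n₀, ?_⟩)
      · rintro w y ⟨r, _, _, _, _, _, _, _, _, h, -⟩
        exact ⟨r, h⟩
      · intro w y hw
        have e1 : 2 * e / 2 = e := by omega
        have e2 : 2 * e % 2 = 0 := by omega
        simp only [Pool.Agent.Helper92.RECTT.accB, e1, e2, ifz, if_true]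
        exact he w y hw
    · have h := h6
        (fun w y => ∃ r, A.AcceptsAt w (y.take (y.length - 3 * c * w.length)) r)
        (fun w y => Within A E c C w (y.take (y.length - 3 * c * w.length))) ?_ (Coded.right
        ⟨2 * e + 1, n₀, ?_⟩)
      · exact h.mono'
          (fun w α h => (Pool.Agent.Helper92.RECTT.q_take c w α
            fun y => ∃ r, A.AcceptsAt w y r).1 h)
          (fun w α h => (Pool.Agent.Helper92.RECTT.q_take c w α
            fun y => Within A E c C w y).2 h)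
      · rintro w y ⟨r, _, _, _, _, _, _, _, _, h, -⟩
        exact ⟨r, h⟩
      · intro w y hw
        have e1 : (2 * e + 1) / 2 = e := by omega
        have e2 : (2 * e + 1) % 2 = 1 := by omega
        simp only [Pool.Agent.Helper92.RECTT.accB, e1, e2, ifz, one_ne_zero, if_false,
          Pool.Agent.Helper92.RECTT.drp_num]
        exact he w _ hw
  refine ⟨h5, fun A E C => ?_, fun d hd A E C => (hOH d hd A E C).1, fun M C =>
    tm_hard (fun d hd A E C => (hOH d hd A E C).2) M C⟩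
  refine h6 (fun w y => ∃ g r, A.AcceptsAt w y g r) (A.Good E c C) ?_
    (Coded.left (Pool.Agent.Helper81.Sus3.exists_good Pool.Agent.Helper81.Tok3.theSim
      Pool.Agent.Helper81.Sus3.parts c A E C))
  rintro w y ⟨g, r, _, _, _, _, _, _, _, _, _, h, -⟩
  exact ⟨g, r, h⟩

end Pool.Agent.Helper92.KR
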