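import Pool.Agent.Helper78.Mpc.Defs

/-!
# Descriptions of words, in linear space: definitions
-/

namespace Pool.Agent.Helper92.KR

open Pool.Agent.Helper65.LinSpace Pool.Agent.Helper78.Mpc

/-- The word `1 ^ n 0 d`. -/
def cd (n : ℕ) (d : List Bool) : List Bool := List.replicate n true ++ false :: d

/-- `K_D(w) ≤ k`: the word `w` of length `n` has a description `d` of at most `k` bits for the
decompressor `D`, that is, `D (1 ^ n 0 d) = w`. -/
def Desc (D : List Bool → List Bool) (w : List Bool) (k : ℕ) : Prop :=
  ∃ d : List Bool, d.length ≤ k ∧ D (cd w.length d) = w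

/-- The words `w` with `K_D(w) ≥ g |w|`. -/
def Rand (D : List Bool → List Bool) (g : ℚ) : Set (List Bool) :=
  {w | ∀ d, D (cd w.length d) = w → g * w.length ≤ d.length}

/-- A machine, given by `Acc w α` (it accepts the word `w` with the advice `α`) and `Good w α` (it does so
within certain bounds), does not find random words.

* `few`: if the machine accepts at least `k` words of length `n` within the bounds, then at least `k`
  of the words `w` of length `n` which it accepts have `K_D(w) ≤ |α| + log k + 2 log (log k + 1) + c'`.
* `none`: if all words of length `n` which the machine accepts are in `Rand D g`, then it accepts no word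
  of length `n` within the bounds, if `|α| + c' < g n`. -/
structure KHard (D : List Bool → List Bool) (Acc Good : List Bool → List Bool → Prop) : Prop where
  few : ∃ c' : ℕ, ∀ (n : ℕ) (α : List Bool) (k : ℕ),
    k ≤ {w : List Bool | w.length = n ∧ Good w α}.ncard →
    k ≤ {w : List Bool | w.length = n ∧ Acc w α ∧
      Desc D w (α.length + Nat.log 2 k + 2 * Nat.log 2 (Nat.log 2 k + 1) + c')}.ncard
  none : ∃ c' : ℕ, ∀ (g : ℚ) (n : ℕ) (α : List Bool), (α.length : ℚ) + c' < g * n →
    (∀ w : List Bool, w.length = n → Acc w α → w ∈ Rand D g) →
    ∀ w : List Bool, w.length = n → ¬Good w α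

end Pool.Agent.Helper92.KR
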