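import Pool.Agent.Helper92.KR.Lin

/-!
# Random words: two models of computation at the same time
-/

namespace Pool.Agent.Helper92.KR

open Pool.Agent.Helper65.LinSpace Pool.Agent.Helper78.Mpc Finset
open Pool.Agent.Helper81.Gen4 (Q Q_const Q_mono)

theorem ncard_len_mono {n : ℕ} {P R : List Bool → Prop} (h : ∀ w, w.length = n → P w → R w) :
    {w : List Bool | w.length = n ∧ P w}.ncard ≤ {w : List Bool | w.length = n ∧ R w}.ncard :=
  Set.ncard_le_ncard (fun w hw => ⟨hw.1, h w hw.1 hw.2⟩) ((finite_len' n).subset fun w hw => hw.1)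

/-- The second property follows from the first. -/
theorem KHard.of_few {D : List Bool → List Bool} {Acc Good : List Bool → List Bool → Prop}
    (h : ∃ c' : ℕ, ∀ (n : ℕ) (α : List Bool) (k : ℕ),
      k ≤ {w : List Bool | w.length = n ∧ Good w α}.ncard →
      k ≤ {w : List Bool | w.length = n ∧ Acc w α ∧
        Desc D w (α.length + Nat.log 2 k + 2 * Nat.log 2 (Nat.log 2 k + 1) + c')}.ncard) :
    KHard D Acc Good := by
  refine ⟨h, ?_⟩
  obtain ⟨c', h⟩ := h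
  refine ⟨c', fun g n α h1 h2 w hw hG => ?_⟩
  have h3 : 1 ≤ {w : List Bool | w.length = n ∧ Good w α}.ncard := by
    rw [Nat.one_le_iff_ne_zero]
    intro h4
    rw [Set.ncard_eq_zero ((finite_len' n).subset fun w hw => hw.1)] at h4
    exact (Set.eq_empty_iff_forall_notMem.1 h4 w) ⟨hw, hG⟩
  have h4 := h n α 1 h3
  obtain ⟨v, hv, hA, d, hd, hD⟩ : {w : List Bool | w.length = n ∧ Acc w α ∧
      Desc D w (α.length + Nat.log 2 1 + 2 * Nat.log 2 (Nat.log 2 1 + 1) + c')}.Nonempty := by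
    rw [Set.nonempty_iff_ne_empty]
    intro h5
    rw [h5, Set.ncard_empty] at h4
    exact absurd h4 (by norm_num)
  have h5 := h2 v hv hA d hD
  rw [hv] at h5
  have h6 : (d.length : ℚ) ≤ α.length + c' := by
    have : d.length ≤ α.length + c' := by simpa using hd
    exact_mod_cast this
  linarith

/-- Larger `D`-complexity classes, more accepted words, less words within the bounds. -/
theorem KHard.mono {D D' : List Bool → List Bool}
    {Acc Good Acc' Good' : List Bool → List Bool → Prop} (h : KHard D Acc Good)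
    (hD : ∃ b : ℕ, ∀ w k, Desc D w k → Desc D' w (k + b))
    (h1 : ∀ w α, Acc w α → Acc' w α) (h2 : ∀ w α, Good' w α → Good w α) :
    KHard D' Acc' Good' := by
  obtain ⟨c', h⟩ := h.few
  obtain ⟨b, hb⟩ := hD
  refine KHard.of_few ⟨c' + b, fun n α k hk => ?_⟩
  refine (h n α k (hk.trans (ncard_len_mono fun w _ hw => h2 w α hw))).trans
    (ncard_len_mono fun w _ hw => ⟨h1 w α hw.1, ?_⟩)
  have := hb w _ hw.2
  rwa [← add_assoc]

/-- Only long words and short advice matter. -/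
theorem KHard.adv {D : List Bool → List Bool} {Acc Good Good' : List Bool → List Bool → Prop}
    (h : KHard D Acc Good) (hD : ∃ b : ℕ, ∀ w, Desc D w (w.length + b)) {c : ℕ} (hc : 0 < c)
    (n₁ : ℕ) (h1 : ∀ w α, Good' w α → Acc w α)
    (h2 : ∀ w α, n₁ ≤ w.length → α.length ≤ c * w.length → Good' w α → Good w α) :
    KHard D Acc Good' := by
  obtain ⟨c', h⟩ := h.few
  obtain ⟨b, hb⟩ := hD
  refine KHard.of_few ⟨c' + n₁ + b, fun n α k hk => ?_⟩
  by_cases hn : n₁ ≤ n ∧ α.length ≤ c * n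
  · refine (h n α k (hk.trans (ncard_len_mono fun w hw hG => h2 w α (by omega)
      (by rw [hw]; exact hn.2) hG))).trans (ncard_len_mono fun w _ hw => ⟨hw.1, ?_⟩)
    obtain ⟨d, hd, hd'⟩ := hw.2
    exact ⟨d, by omega, hd'⟩
  · have h3 : n ≤ n₁ + α.length := by
      by_contra hcon
      have h4 : 1 * n ≤ c * n := Nat.mul_le_mul_right n hc
      exact hn ⟨by omega, by omega⟩
    refine hk.trans (ncard_len_mono fun w hw hG => ⟨h1 w α hG, ?_⟩)
    obtain ⟨d, hd, hd'⟩ := hb w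
    exact ⟨d, by omega, hd'⟩

theorem KHard.mono' {D : List Bool → List Bool}
    {Acc Good Acc' Good' : List Bool → List Bool → Prop} (h : KHard D Acc Good)
    (h1 : ∀ w α, Acc w α → Acc' w α) (h2 : ∀ w α, Good' w α → Good w α) :
    KHard D Acc' Good' :=
  h.mono ⟨0, fun _ _ h => h⟩ h1 h2

/-- For machines without advice. -/
theorem KHard.nil {D : List Bool → List Bool} {Acc Good : List Bool → List Bool → Prop}
    (h : KHard D Acc Good) : KHard D (fun w _ => Acc w []) fun w _ => Good w [] := by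
  obtain ⟨c', h⟩ := h.few
  refine KHard.of_few ⟨c', fun n α k hk => ?_⟩
  refine (h n [] k hk).trans (ncard_len_mono fun w _ hw => ⟨hw.1, ?_⟩)
  obtain ⟨d, hd, hd'⟩ := hw.2
  refine ⟨d, hd.trans ?_, hd'⟩
  simp only [List.length_nil]
  omega

/-- The sandwich property: `e` is a code of the machine. -/
def Coded (acc : ℕ → ℕ → ℕ → ℕ → ℕ) (N : ℕ → ℕ) (Acc Good : List Bool → List Bool → Prop) : Prop :=
  ∃ e n₀ : ℕ, ∀ w y : List Bool, n₀ ≤ w.length →
    (∀ S < N (num w), acc e (num w) (num y) S ≠ 0 → Acc w y) ∧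
    (Good w y → ∃ S < N (num w), acc e (num w) (num y) S ≠ 0)

/-- Two models together. -/
def acc2 (a1 a2 : ℕ → ℕ → ℕ → ℕ → ℕ) (N1 N2 : ℕ → ℕ) (e x y S : ℕ) : ℕ :=
  ifz (e % 2) (lt01 S (N1 x) * a1 (e / 2) x y S) (lt01 S (N2 x) * a2 (e / 2) x y S)

theorem LS.acc2 {a1 a2 : ℕ → ℕ → ℕ → ℕ → ℕ} {N1 N2 : ℕ → ℕ}
    (h1 : LS (fun z : ℕ × ℕ × ℕ × ℕ => a1 z.1 z.2.1 z.2.2.1 z.2.2.2))
    (h2 : LS (fun z : ℕ × ℕ × ℕ × ℕ => a2 z.1 z.2.1 z.2.2.1 z.2.2.2)) (hN1 : LS N1)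
    (hN2 : LS N2) : LS (fun z : ℕ × ℕ × ℕ × ℕ => acc2 a1 a2 N1 N2 z.1 z.2.1 z.2.2.1 z.2.2.2) := by
  unfold KR.acc2
  have h3 : LS (fun z : ℕ × ℕ × ℕ × ℕ => a1 (z.1 / 2) z.2.1 z.2.2.1 z.2.2.2) :=
    LS.comp (g := fun z : ℕ × ℕ × ℕ × ℕ => a1 z.1 z.2.1 z.2.2.1 z.2.2.2)
      (f := fun z : ℕ × ℕ × ℕ × ℕ => (z.1 / 2, z.2.1, z.2.2.1, z.2.2.2)) h1 (by fun_prop)
  have h4 : LS (fun z : ℕ × ℕ × ℕ × ℕ => a2 (z.1 / 2) z.2.1 z.2.2.1 z.2.2.2) :=
    LS.comp (g := fun z : ℕ × ℕ × ℕ × ℕ => a2 z.1 z.2.1 z.2.2.1 z.2.2.2)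
      (f := fun z : ℕ × ℕ × ℕ × ℕ => (z.1 / 2, z.2.1, z.2.2.1, z.2.2.2)) h2 (by fun_prop)
  have h5 : LS (fun z : ℕ × ℕ × ℕ × ℕ => N1 z.2.1) :=
    LS.comp (f := fun z : ℕ × ℕ × ℕ × ℕ => z.2.1) hN1 (by fun_prop)
  have h6 : LS (fun z : ℕ × ℕ × ℕ × ℕ => N2 z.2.1) :=
    LS.comp (f := fun z : ℕ × ℕ × ℕ × ℕ => z.2.1) hN2 (by fun_prop)
  exact LS.ifz (by fun_prop) (LS.mul (LS.lt01 (by fun_prop) h5) h3)
    (LS.mul (LS.lt01 (by fun_prop) h6) h4)

theorem Coded.left {a1 a2 : ℕ → ℕ → ℕ → ℕ → ℕ} {N1 N2 : ℕ → ℕ}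
    {Acc Good : List Bool → List Bool → Prop} (h : Coded a1 N1 Acc Good) :
    Coded (acc2 a1 a2 N1 N2) (fun x => N1 x + N2 x) Acc Good := by
  obtain ⟨e, n₀, h⟩ := h
  have hv : ∀ x y S, acc2 a1 a2 N1 N2 (2 * e) x y S = lt01 S (N1 x) * a1 e x y S := by
    intro x y S
    have e1 : 2 * e / 2 = e := by omega
    have e2 : 2 * e % 2 = 0 := by omega
    unfold acc2
    rw [e1, e2, ifz_zero]
  refine ⟨2 * e, n₀, fun w y hw => ⟨fun S _ hS => ?_, fun hG => ?_⟩⟩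
  · rw [hv] at hS
    obtain ⟨h1, h2⟩ := mul_ne_zero_iff.1 hS
    refine (h w y hw).1 S ?_ h2
    by_contra h3
    exact h1 (if_neg h3)
  · obtain ⟨S, hS, h1⟩ := (h w y hw).2 hG
    refine ⟨S, by show S < N1 (num w) + N2 (num w); omega, ?_⟩
    rw [hv, lt01, if_pos hS, one_mul]
    exact h1

theorem Coded.right {a1 a2 : ℕ → ℕ → ℕ → ℕ → ℕ} {N1 N2 : ℕ → ℕ}
    {Acc Good : List Bool → List Bool → Prop} (h : Coded a2 N2 Acc Good) :
    Coded (acc2 a1 a2 N1 N2) (fun x => N1 x + N2 x) Acc Good := by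
  obtain ⟨e, n₀, h⟩ := h
  have hv : ∀ x y S, acc2 a1 a2 N1 N2 (2 * e + 1) x y S = lt01 S (N2 x) * a2 e x y S := by
    intro x y S
    have e1 : (2 * e + 1) / 2 = e := by omega
    have e2 : (2 * e + 1) % 2 = 1 := by omega
    unfold acc2
    rw [e1, e2, ifz_ne one_ne_zero]
  refine ⟨2 * e + 1, n₀, fun w y hw => ⟨fun S _ hS => ?_, fun hG => ?_⟩⟩
  · rw [hv] at hS
    obtain ⟨h1, h2⟩ := mul_ne_zero_iff.1 hS
    refine (h w y hw).1 S ?_ h2
    by_contra h3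
    exact h1 (if_neg h3)
  · obtain ⟨S, hS, h1⟩ := (h w y hw).2 hG
    refine ⟨S, by show S < N1 (num w) + N2 (num w); omega, ?_⟩
    rw [hv, lt01, if_pos hS, one_mul]
    exact h1

/-- **Random words**, for all machines with a code. -/
theorem kr_all (acc : ℕ → ℕ → ℕ → ℕ → ℕ) (N : ℕ → ℕ)
    (hacc : LS (fun z : ℕ × ℕ × ℕ × ℕ => acc z.1 z.2.1 z.2.2.1 z.2.2.2)) (hN : LS N) (c : ℕ) :
    ∃ D₀ : List Bool → List Bool, LinComp D₀ ∧ (∃ b : ℕ, ∀ w, Desc D₀ w (w.length + b)) ∧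
      ∀ D : List Bool → List Bool, LinComp D →
      (∃ b : ℕ, ∀ w k, Desc D₀ w k → Desc D w (k + b)) →
      (∀ g : ℚ, DLINSPACE (Rand D g)) ∧
      ∀ (Acc Good : List Bool → List Bool → Prop), (∀ w y, Good w y → Acc w y) →
        Coded acc N Acc Good →
        KHard D (fun w α => Q (c * w.length) fun v => Acc w (α ++ v))
          fun w α => Q (c * w.length) fun v => Good w (α ++ v) := by
  obtain ⟨D₀, h1, h0, h2⟩ := kr_main acc N hacc hN c
  refine ⟨D₀, h1, h0, fun D hD hb => ⟨rand_lin hD, fun Acc Good hGA hcode => ?_⟩⟩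
  obtain ⟨c', h3⟩ := h2 Acc Good hGA hcode
  refine KHard.mono (D := D₀) (KHard.of_few ⟨c', fun n α k hk => ?_⟩) hb (fun _ _ h => h)
    fun _ _ h => h
  have e1 : {w : List Bool | w.length = n ∧ Q (c * w.length) fun v => Good w (α ++ v)}.ncard ≤
      {w : List Bool | w.length = n ∧ Q (c * n) fun v => Good w (α ++ v)}.ncard :=
    ncard_len_mono fun w hw h => by rwa [hw] at h
  refine (h3 n α k (hk.trans e1)).trans (ncard_len_mono fun w hw h => ⟨?_, h.2⟩)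
  rw [hw]
  exact h.1

end Pool.Agent.Helper92.KR
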