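import Pool.Agent.Helper92.KR.Main

/-!
# The set of the random words is in linear space
-/

namespace Pool.Agent.Helper92.KR

open Pool.Agent.Helper65.LinSpace Pool.Agent.Helper78.Mpc Finset
open Pool.Agent.Helper81.Gen4 (Q)

/-- `0` if the number `y` of a word gives, by the functions `F0`, `F1` of a decompressor, the word with
the number `x`. -/
def chk (F0 F1 : ℕ → ℕ) (B x y : ℕ) : ℕ :=
  (∑ i ∈ range (Nat.log 2 x), ifz (dig 2 x i) (1 - F0 (queryN B i y)) (1 - F1 (queryN B i y))) +
    (F0 (queryN B (Nat.log 2 x) y) + F1 (queryN B (Nat.log 2 x) y))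

theorem LS.chk {F0 F1 : ℕ → ℕ} (h0 : LS F0) (h1 : LS F1) {α : Type} [Ctx α] {B x y : α → ℕ}
    (hB : LS B) (hx : LS x) (hy : LS y) : LS (fun a => chk F0 F1 (B a) (x a) (y a)) := by
  unfold KR.chk
  have hq : ∀ (F : ℕ → ℕ), LS F → LS (fun z : α × ℕ => F (queryN (B z.1) z.2 (y z.1))) :=
    fun F hF => LS.comp (f := fun z : α × ℕ => queryN (B z.1) z.2 (y z.1)) hF (by fun_prop)
  have hq' : ∀ (F : ℕ → ℕ), LS F → LS (fun a => F (queryN (B a) (Nat.log 2 (x a)) (y a))) :=
    fun F hF => LS.comp (f := fun a => queryN (B a) (Nat.log 2 (x a)) (y a)) hF (by fun_prop)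
  refine LS.add ?_ (LS.add (hq' F0 h0) (hq' F1 h1))
  refine LS.sum_le (N := fun a => Nat.log 2 (x a)) (B := fun _ => 1)
    (f := fun a i => ifz (dig 2 (x a) i) (1 - F0 (queryN (B a) i (y a)))
      (1 - F1 (queryN (B a) i (y a)))) ?_ (by fun_prop) (by fun_prop) ?_
  · exact LS.ifz (by fun_prop) (LS.sub (LS.const 1) (hq F0 h0)) (LS.sub (LS.const 1) (hq F1 h1))
  · intro a i _
    unfold ifz
    split_ifs <;> omega

theorem chk_spec {D : List Bool → List Bool} {F0 F1 : ℕ → ℕ}
    (h0 : ∀ x, F0 x ≤ 1) (h1 : ∀ x, F1 x ≤ 1)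
    (h0' : ∀ (i : ℕ) (v : List Bool), F0 (num (cd i v)) = 1 ↔ (D v)[i]? = some false)
    (h1' : ∀ (i : ℕ) (v : List Bool), F1 (num (cd i v)) = 1 ↔ (D v)[i]? = some true)
    {B : ℕ} {w v : List Bool} (hB : 2 ^ (w.length + 1) ≤ B) :
    chk F0 F1 B (num w) (num v) = 0 ↔ D v = w := by
  have hq : ∀ i ≤ w.length, queryN B i (num v) = num (cd i v) := fun i hi =>
    queryN_num ((Nat.pow_le_pow_right (by norm_num) (by omega)).trans hB) v
  unfold chk
  rw [log_num, Nat.add_eq_zero_iff, sum_eq_zero_iff, Nat.add_eq_zero_iff, hq _ le_rfl]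
  have key : ∀ i (hi : i < w.length), ifz (dig 2 (num w) i) (1 - F0 (queryN B i (num v)))
      (1 - F1 (queryN B i (num v))) = 0 ↔ (D v)[i]? = some w[i] := by
    intro i hi
    rw [hq i hi.le, dig_num w i hi]
    have a0 := h0 (num (cd i v))
    have a1 := h1 (num (cd i v))
    have b0 := h0' i v
    have b1 := h1' i v
    cases hb : w[i]
    · rw [← b0]
      show ifz 0 _ _ = 0 ↔ _
      rw [ifz_zero]
      omega
    · rw [← b1]
      show ifz 1 _ _ = 0 ↔ _
      rw [ifz_ne one_ne_zero]
      omega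
  constructor
  · rintro ⟨h2, h3, h4⟩
    refine List.ext_getElem? fun i => ?_
    rcases Nat.lt_or_ge i w.length with hi | hi
    · rw [(key i hi).1 (h2 i (mem_range.2 hi)), List.getElem?_eq_getElem hi]
    · rw [List.getElem?_eq_none hi]
      have h5 : (D v)[w.length]? = none := by
        rcases hc : (D v)[w.length]? with _ | b
        · rfl
        · exfalso
          cases b
          · have := (h0' _ _).2 hc
            omega
          · have := (h1' _ _).2 hc
            omega
      rw [List.getElem?_eq_none_iff] at h5 ⊢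
      omega
  · intro h
    refine ⟨fun i hi => (key i (mem_range.1 hi)).2 ?_, ?_, ?_⟩
    · rw [h]
      exact List.getElem?_eq_getElem (mem_range.1 hi)
    · have h2 := h0' w.length v
      have h3 := h0 (num (cd w.length v))
      rw [h, List.getElem?_eq_none le_rfl] at h2
      by_contra h4
      exact absurd (h2.1 (by omega)) (by simp)
    · have h2 := h1' w.length v
      have h3 := h1 (num (cd w.length v))
      rw [h, List.getElem?_eq_none le_rfl] at h2
      by_contra h4
      exact absurd (h2.1 (by omega)) (by simp)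

/-- The functions which give the letters. -/
theorem exists_letters {D : List Bool → List Bool} (hD : LinComp D) (b : Bool) :
    ∃ F : ℕ → ℕ, LS F ∧ (∀ x, F x ≤ 1) ∧ ∀ (i : ℕ) (v : List Bool),
      F (num (cd i v)) = 1 ↔ (D v)[i]? = some b := by
  obtain ⟨F, h1, h2, h3⟩ := exists_char (hD b)
  refine ⟨F, h1, h2, fun i v => ?_⟩
  rw [h3]
  constructor
  · rintro ⟨i', v', h4, h5⟩
    have h6 : i = i' := by
      rw [← l1_cd i v, h4]
      exact l1_cd i' v'
    have h7 : v = v' := num_inj (by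
      rw [← rst_cd i v, h4]
      exact rst_cd i' v')
    rw [h6, h7]
    exact h5
  · intro h4
    exact ⟨i, v, rfl, h4⟩

/-- The characteristic function of the random words. -/
def rndN (F0 F1 : ℕ → ℕ) (p q x : ℕ) : ℕ :=
  eq01 (∑ δ ∈ range (2 ^ (p * Nat.log 2 x)), lt01 0 δ * (lt01 (q * Nat.log 2 δ) (p * Nat.log 2 x) *
    eq01 (chk F0 F1 (2 * x) x (queryN (2 * x) (Nat.log 2 x) δ)) 0)) 0

theorem rat_iff (g : ℚ) (n m : ℕ) : g * n ≤ m ↔ g.num.toNat * n ≤ g.den * m := by
  have hd : (0 : ℚ) < g.den := by exact_mod_cast g.pos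
  have h1 : g = g.num / g.den := (Rat.num_div_den g).symm
  have h2 : g * n ≤ m ↔ (g.num : ℚ) * n ≤ g.den * m := by
    nth_rewrite 1 [h1]
    rw [div_mul_eq_mul_div, div_le_iff₀ hd, mul_comm (m : ℚ)]
  rw [h2]
  rcases le_or_gt 0 g.num with h | h
  · obtain ⟨k, hk⟩ := Int.eq_ofNat_of_zero_le h
    rw [hk]
    simp only [Int.cast_natCast, Int.toNat_natCast]
    norm_cast
  · have h3 : g.num.toNat = 0 := Int.toNat_of_nonpos h.le
    rw [h3, zero_mul]
    refine ⟨fun _ => Nat.zero_le _, fun _ => ?_⟩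
    have h4 : (g.num : ℚ) * n ≤ 0 := mul_nonpos_of_nonpos_of_nonneg (by exact_mod_cast h.le)
      (Nat.cast_nonneg _)
    exact h4.trans (by positivity)

theorem eq01_ne_zero (x : ℕ) : eq01 x 0 ≠ 0 ↔ x = 0 := by
  unfold eq01
  split_ifs with h <;> simp [h]

/-- **The set of the random words is in linear space.** -/
theorem rand_lin {D : List Bool → List Bool} (hD : LinComp D) (g : ℚ) : DLINSPACE (Rand D g) := by
  obtain ⟨F0, a1, a2, a3⟩ := exists_letters hD false
  obtain ⟨F1, b1, b2, b3⟩ := exists_letters hD true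
  refine LS.dlinspace (F := fun x => rndN F0 F1 g.num.toNat g.den x) ?_ _ fun w => ?_
  · unfold rndN
    refine LS.eq01 (LS.sum_le (N := fun x => 2 ^ (g.num.toNat * Nat.log 2 x)) (B := fun _ => 1)
      (f := fun x δ => lt01 0 δ * (lt01 (g.den * Nat.log 2 δ) (g.num.toNat * Nat.log 2 x) *
        eq01 (chk F0 F1 (2 * x) x (queryN (2 * x) (Nat.log 2 x) δ)) 0)) ?_
        (Pool.Agent.Helper81.Gen4.LS.pow2 _ (by fun_prop)) (by fun_prop) ?_) (by fun_prop)
    · refine LS.mul (by fun_prop) (LS.mul (by fun_prop) (LS.eq01 ?_ (by fun_prop)))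
      exact LS.chk a1 b1 (by fun_prop) (by fun_prop) (by fun_prop)
    · intro x δ _
      unfold lt01 eq01
      split_ifs <;> simp
  · have hx : 2 ^ (w.length + 1) ≤ 2 * num w := by
      rw [pow_succ, mul_comm]
      refine Nat.mul_le_mul_left _ ?_
      rw [← log_num w]
      exact Nat.pow_log_le_self 2 (num_pos w).ne'
    have hchk : ∀ d : List Bool, chk F0 F1 (2 * num w) (num w)
        (queryN (2 * num w) (Nat.log 2 (num w)) (num d)) = 0 ↔ D (cd w.length d) = w := by
      intro d
      rw [log_num, queryN_num hx]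
      exact chk_spec a2 b2 a3 b3 hx
    have hmem : w ∈ Rand D g ↔ ∀ d, D (cd w.length d) = w →
        g.num.toNat * w.length ≤ g.den * d.length := by
      show (∀ d, D (cd w.length d) = w → g * w.length ≤ d.length) ↔ _
      exact forall_congr' fun d => imp_congr_right fun _ => rat_iff g _ _
    rw [hmem]
    show _ ↔ rndN F0 F1 g.num.toNat g.den (num w) ≠ 0
    unfold rndN
    rw [eq01_ne_zero, sum_eq_zero_iff]
    constructor
    · intro h δ _
      rcases Nat.eq_zero_or_pos δ with h0 | h0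
      · simp [lt01, h0]
      · obtain ⟨d, rfl⟩ := exists_num h0
        by_cases h2 : D (cd w.length d) = w
        · have h3 := h d h2
          have h4 : lt01 (g.den * Nat.log 2 (num d)) (g.num.toNat * Nat.log 2 (num w)) = 0 := by
            rw [log_num, log_num, lt01, if_neg (by omega)]
          rw [h4]
          simp
        · have h3 := (not_congr (hchk d)).2 h2
          rw [eq01_ne h3]
          simp
    · intro h d hd
      by_contra h2
      push Not at h2
      have hden : 0 < g.den := g.pos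
      have h3 : d.length < g.num.toNat * w.length :=
        lt_of_le_of_lt (Nat.le_mul_of_pos_left _ hden) h2
      have h4 : num d < 2 ^ (g.num.toNat * Nat.log 2 (num w)) := by
        rw [log_num w]
        have h5 := Nat.lt_pow_succ_log_self (b := 2) (by norm_num) (num d)
        rw [log_num d] at h5
        exact h5.trans_le (Nat.pow_le_pow_right (by norm_num) h3)
      have h5 := h (num d) (mem_range.2 h4)
      have h6 : lt01 0 (num d) = 1 := if_pos (num_pos d)
      have h7 : lt01 (g.den * Nat.log 2 (num d)) (g.num.toNat * Nat.log 2 (num w)) = 1 := by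
        rw [log_num, log_num]
        exact if_pos h2
      have h8 := (hchk d).2 hd
      rw [h6, h7, eq01_of h8] at h5
      simp at h5

/-- Few words are not random. -/
theorem rand_count (D : List Bool → List Bool) (g : ℚ) (hg : 0 ≤ g) (n : ℕ) :
    ({w : List Bool | w.length = n ∧ w ∉ Rand D g}.ncard : ℝ) < 2 ^ ((g : ℝ) * n + 1) := by
  have hex : ∀ w ∈ {w : List Bool | w.length = n ∧ w ∉ Rand D g}, ∃ d : List Bool,
      D (cd n d) = w ∧ (d.length : ℚ) < g * n := by
    rintro w ⟨hw, h⟩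
    have h1 : ¬∀ d, D (cd w.length d) = w → g * w.length ≤ d.length := h
    push Not at h1
    obtain ⟨d, h2, h3⟩ := h1
    subst hw
    exact ⟨d, h2, h3⟩
  choose! f hf using hex
  have h1 : {w : List Bool | w.length = n ∧ w ∉ Rand D g}.ncard ≤
      (Finset.Ico 1 (2 ^ ⌈g * n⌉₊)).card := by
    rw [← Set.ncard_coe_finset]
    refine Set.ncard_le_ncard_of_injOn (fun w => num (f w)) ?_ ?_ (Finset.finite_toSet _)
    · intro w hw
      obtain ⟨h2, h3⟩ := hf w hw
      rw [Finset.mem_coe, Finset.mem_Ico]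
      refine ⟨num_pos _, ?_⟩
      have h4 : (f w).length < ⌈g * n⌉₊ := Nat.lt_ceil.2 h3
      have h5 := Nat.lt_pow_succ_log_self (b := 2) (by norm_num) (num (f w))
      rw [log_num] at h5
      exact h5.trans_le (Nat.pow_le_pow_right (by norm_num) h4)
    · intro w hw v hv h
      have h2 : f w = f v := num_inj h
      rw [← (hf w hw).1, ← (hf v hv).1, h2]
  rw [Nat.card_Ico] at h1
  have h2 : (⌈g * n⌉₊ : ℝ) ≤ (g : ℝ) * n + 1 := by
    have h3 : ((⌈g * n⌉₊ : ℕ) : ℚ) < g * n + 1 := Nat.ceil_lt_add_one (by positivity)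
    exact_mod_cast h3.le
  have h3 : (({w : List Bool | w.length = n ∧ w ∉ Rand D g}.ncard : ℕ) : ℝ) <
      (2 : ℝ) ^ (⌈g * n⌉₊ : ℕ) := by
    have h4 : 0 < 2 ^ ⌈g * n⌉₊ := by positivity
    have h5 : {w : List Bool | w.length = n ∧ w ∉ Rand D g}.ncard < 2 ^ ⌈g * n⌉₊ := by omega
    exact_mod_cast h5
  refine h3.trans_le ?_
  rw [← Real.rpow_natCast]
  exact Real.rpow_le_rpow_of_exponent_le (by norm_num) h2

end Pool.Agent.Helper92.KR
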