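import Pool.Agent.Helper92.KR.Num
import Pool.Agent.Helper78.Xor.Abs
import Pool.Agent.Helper81.Gen4.Main

/-!
# The first accepted words have short descriptions
-/

namespace Pool.Agent.Helper92.KR

open Pool.Agent.Helper65.LinSpace Pool.Agent.Helper78.Mpc Finset
open Pool.Agent.Helper78.Xor (rankN nthN rankN_succ nthN_rank exists_rank)
open Pool.Agent.Helper81.Gen4 (Q Q_mono UQ UQ_spec)

/-! ### The accepted words of a given length in numerical order -/

section

variable (U : ℕ → ℕ → ℕ → ℕ)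

/-- `1` if the word number `y` of the length of `x` is accepted by the machine `e` with the advice
`a`. -/
def nlX (x e a y : ℕ) : ℕ := lt01 0 (U e a (2 ^ Nat.log 2 x + y))

/-- The accepted word number `i`. -/
def nthX (x e a i : ℕ) : ℕ := 2 ^ Nat.log 2 x + nthN (2 ^ Nat.log 2 x) (nlX U x e a) i

variable {U}

theorem LS.nthX (hU : LS fun z : ℕ × ℕ × ℕ => U z.1 z.2.1 z.2.2) {α : Type} [Ctx α]
    {x e a i : α → ℕ} (hx : LS x) (he : LS e) (ha : LS a) (hi : LS i) :
    LS (fun z => nthX U (x z) (e z) (a z) (i z)) := by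
  have hp : LS (fun z => 2 ^ Nat.log 2 (x z)) := by
    refine LS.pow_of_le (f := fun _ => 2) (g := fun z => Nat.log 2 (x z))
      (C := fun z => x z + 1) (by fun_prop) (by fun_prop) (by fun_prop) fun z => ?_
    rcases Nat.eq_zero_or_pos (x z) with h0 | h0
    · rw [h0]
      simp
    · exact (Nat.pow_log_le_self 2 h0.ne').trans (Nat.le_succ _)
  unfold KR.nthX nthN rankN nlX
  refine LS.add hp (LS.sum_le (N := fun z => 2 ^ Nat.log 2 (x z)) (B := fun _ => 1)
    (f := fun z g => le01 (∑ h ∈ range (g + 1), lt01 0 (U (e z) (a z)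
      (2 ^ Nat.log 2 (x z) + h))) (i z)) ?_ hp (by fun_prop) fun z g _ => ?_)
  · refine LS.le01 (LS.sum_le (N := fun z : α × ℕ => z.2 + 1) (B := fun _ => 1)
      (f := fun z h => lt01 0 (U (e z.1) (a z.1) (2 ^ Nat.log 2 (x z.1) + h))) ?_ (by fun_prop)
      (by fun_prop) fun z g _ => ?_) (by fun_prop)
    · have hp' : LS (fun z : (α × ℕ) × ℕ => 2 ^ Nat.log 2 (x z.1.1)) :=
        LS.comp (f := fun z : (α × ℕ) × ℕ => z.1.1) hp (by fun_prop)
      exact LS.lt01 (LS.const 0) (LS.comp (g := fun z : ℕ × ℕ × ℕ => U z.1 z.2.1 z.2.2)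
        (f := fun z : (α × ℕ) × ℕ => (e z.1.1, a z.1.1, 2 ^ Nat.log 2 (x z.1.1) + z.2)) hU
        (by fun_prop))
    · unfold lt01
      split_ifs <;> omega
  · unfold le01
    split_ifs <;> omega

theorem nl_le (x e a y : ℕ) : nlX U x e a y ≤ 1 := by
  unfold nlX lt01
  split_ifs <;> omega

theorem finite_len' (n : ℕ) : {w : List Bool | w.length = n}.Finite :=
  List.finite_length_eq Bool n

/-- There are at least `k` accepted words among the first `k` accepted words. -/
theorem nth_count {n e a k : ℕ}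
    (hk : k ≤ {w : List Bool | w.length = n ∧ U e a (num w) ≠ 0}.ncard) :
    k ≤ {w : List Bool | w.length = n ∧ U e a (num w) ≠ 0 ∧
      ∃ i < k, num w = nthX U (2 ^ n) e a i}.ncard := by
  have hlog : Nat.log 2 (2 ^ n) = n := Nat.log_pow (by norm_num) n
  set nl := nlX U (2 ^ n) e a with hnl
  have hnl' : ∀ y, nl y = lt01 0 (U e a (2 ^ n + y)) := fun y => by
    rw [hnl, nlX, hlog]
  have hnum : ∀ w : List Bool, w.length = n → 2 ^ n ≤ num w ∧ num w < 2 ^ (n + 1) := by
    intro w hw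
    have h1 := log_num w
    rw [hw] at h1
    constructor
    · rw [← h1]
      exact Nat.pow_log_le_self 2 (num_pos w).ne'
    · rw [← h1]
      exact Nat.lt_pow_succ_log_self (by norm_num) _
  have h1 : {w : List Bool | w.length = n ∧ U e a (num w) ≠ 0}.ncard ≤ rankN nl (2 ^ n) := by
    have hcard : rankN nl (2 ^ n) = ((range (2 ^ n)).filter fun y => nl y = 1).card := by
      rw [Finset.card_filter]
      refine sum_congr rfl fun y _ => ?_
      have := nl_le (U := U) (2 ^ n) e a y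
      rw [← hnl] at this
      split_ifs with h
      · exact h
      · omega
    rw [hcard, ← Set.ncard_coe_finset]
    refine Set.ncard_le_ncard_of_injOn (fun w => num w - 2 ^ n) ?_ ?_ (Finset.finite_toSet _)
    · rintro w ⟨hw, h⟩
      obtain ⟨h2, h3⟩ := hnum w hw
      rw [pow_succ] at h3
      simp only [Finset.coe_filter, mem_range, Set.mem_ofPred_eq]
      refine ⟨by omega, ?_⟩
      rw [hnl', Nat.add_sub_cancel' h2, lt01, if_pos (Nat.pos_of_ne_zero h)]
    · rintro w ⟨hw, -⟩ v ⟨hv, -⟩ h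
      obtain ⟨h2, -⟩ := hnum w hw
      obtain ⟨h3, -⟩ := hnum v hv
      refine num_inj ?_
      simp only at h
      omega
  have h2 : ∀ i < k, ∃ g < 2 ^ n, nl g = 1 ∧ rankN nl g = i ∧
      nthX U (2 ^ n) e a i = 2 ^ n + g := by
    intro i hi
    obtain ⟨g, hg, h3, h4⟩ := exists_rank (nl := nl) (fun y => nl_le _ _ _ _) (2 ^ n) i
      (by omega)
    refine ⟨g, hg, h3, h4, ?_⟩
    unfold nthX
    rw [hlog, ← hnl, ← h4, nthN_rank hg h3]
  choose! g hg using h2
  have h3 : ((range k).image fun i => wd (2 ^ n + g i)).card = k := by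
    rw [Finset.card_image_of_injOn, card_range]
    intro i hi j hj h
    rw [Finset.mem_coe, mem_range] at hi hj
    have hp : 0 < 2 ^ n := by positivity
    have e1 : 2 ^ n + g i = 2 ^ n + g j := by
      rw [← num_wd (y := 2 ^ n + g i) (by omega), ← num_wd (y := 2 ^ n + g j) (by omega)]
      exact congrArg num h
    have e2 : g i = g j := by omega
    rw [← (hg i hi).2.2.1, ← (hg j hj).2.2.1, e2]
  calc k = (((range k).image fun i => wd (2 ^ n + g i) : Finset (List Bool)) :
        Set (List Bool)).ncard := by rw [Set.ncard_coe_finset, h3]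
    _ ≤ _ := Set.ncard_le_ncard ?_ ((finite_len' n).subset fun w hw => hw.1)
  intro w hw
  rw [Finset.mem_coe, mem_image] at hw
  obtain ⟨i, hi, rfl⟩ := hw
  rw [mem_range] at hi
  have hp : 0 < 2 ^ n := by positivity
  obtain ⟨h4, h5, h6, h7⟩ := hg i hi
  have h8 : num (wd (2 ^ n + g i)) = 2 ^ n + g i := num_wd (by omega)
  refine ⟨?_, ?_, i, hi, ?_⟩
  · rw [log_wd]
    refine (Nat.log_eq_iff (Or.inr ⟨by norm_num, by omega⟩)).2 ⟨Nat.le_add_right _ _, ?_⟩
    rw [pow_succ]
    omega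
  · rw [h8]
    rw [hnl', lt01] at h5
    intro h9
    rw [h9] at h5
    simp at h5
  · rw [h8, h7]

end

/-! ### The decompressor -/

section

variable (U : ℕ → ℕ → ℕ → ℕ)

/-- The decompressor for the description with the number `d1`, for the machine `e`. -/
def VB (x e d1 : ℕ) : ℕ :=
  nthX U x e (rst d1 / 2 ^ l1 d1 / 2 ^ (rst d1 % 2 ^ l1 d1))
    (rst d1 / 2 ^ l1 d1 % 2 ^ (rst d1 % 2 ^ l1 d1))

/-- The universal decompressor. -/
def VA (u : ℕ) : ℕ :=
  ifz (l1 (rst u)) (rst (rst u)) (VB U (2 ^ l1 u) (l1 (rst u) - 1) (rst (rst u)))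

variable {U}

theorem LS.VA (hU : LS fun z : ℕ × ℕ × ℕ => U z.1 z.2.1 z.2.2) : LS (VA U) := by
  have hp : LS (fun u : ℕ => 2 ^ KR.l1 u) := by
    refine LS.pow_of_le (f := fun _ => 2) (g := fun u => KR.l1 u)
      (C := fun u => u + 1) (by fun_prop) (by fun_prop) (by fun_prop) fun z => ?_
    refine (Nat.pow_le_pow_right (by norm_num) (l1_le z)).trans ?_
    rcases Nat.eq_zero_or_pos z with h0 | h0
    · rw [h0]
      simp
    · exact (Nat.pow_log_le_self 2 h0.ne').trans (Nat.le_succ _)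
  have h1 : LS (fun u : ℕ => KR.rst (KR.rst (KR.rst u)) / 2 ^ KR.l1 (KR.rst (KR.rst u))) :=
    LS.divPow (LS.const 2) (by fun_prop) (by fun_prop)
  have h2 : LS (fun u : ℕ => KR.rst (KR.rst (KR.rst u)) % 2 ^ KR.l1 (KR.rst (KR.rst u))) :=
    LS.modPow (LS.const 2) (by fun_prop) (by fun_prop)
  unfold KR.VA VB
  refine LS.ifz (by fun_prop) (by fun_prop) (LS.nthX hU hp (by fun_prop) ?_ ?_)
  · exact LS.divPow (LS.const 2) h1 h2
  · exact LS.modPow (LS.const 2) h1 h2

/-- The number of a description. -/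
theorem VB_code (x e i j l a : ℕ) (hi : i < 2 ^ j) (hj : j < 2 ^ l) (ha : 0 < a) :
    VB U x e (2 ^ l - 1 + 2 ^ (l + 1) * (j + 2 ^ l * (i + 2 ^ j * a))) = nthX U x e a i := by
  have h1 : 0 < j + 2 ^ l * (i + 2 ^ j * a) := by positivity
  unfold VB
  rw [l1_code _ _ h1, rst_code _ _ h1, Nat.add_mul_div_left _ _ (by positivity),
    Nat.div_eq_of_lt hj, zero_add, Nat.add_mul_mod_self_left, Nat.mod_eq_of_lt hj,
    Nat.add_mul_div_left _ _ (by positivity), Nat.div_eq_of_lt hi, zero_add,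
    Nat.add_mul_mod_self_left, Nat.mod_eq_of_lt hi]

theorem log_add_mul {j l m : ℕ} (hj : j < 2 ^ l) (hm : 0 < m) :
    Nat.log 2 (j + 2 ^ l * m) = l + Nat.log 2 m := by
  have h2 : 2 ^ Nat.log 2 m ≤ m := Nat.pow_log_le_self 2 hm.ne'
  have h3 : m < 2 ^ (Nat.log 2 m + 1) := Nat.lt_pow_succ_log_self (by norm_num) _
  have h4 : 0 < 2 ^ l * m := by positivity
  refine (Nat.log_eq_iff (Or.inr ⟨by norm_num, by omega⟩)).2 ⟨?_, ?_⟩
  · calc 2 ^ (l + Nat.log 2 m) = 2 ^ l * 2 ^ Nat.log 2 m := by rw [pow_add]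
      _ ≤ 2 ^ l * m := Nat.mul_le_mul_left _ h2
      _ ≤ _ := Nat.le_add_left _ _
  · calc j + 2 ^ l * m < 2 ^ l + 2 ^ l * m := by omega
      _ = 2 ^ l * (m + 1) := by ring
      _ ≤ 2 ^ l * 2 ^ (Nat.log 2 m + 1) := Nat.mul_le_mul_left _ h3
      _ = _ := by rw [← pow_add]; ring_nf

/-- The universal decompressor on words. -/
noncomputable def DU (U : ℕ → ℕ → ℕ → ℕ) (u : List Bool) : List Bool := wd (VA U (num u))

theorem linComp_DU (hU : LS fun z : ℕ × ℕ × ℕ => U z.1 z.2.1 z.2.2) : LinComp (DU U) :=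
  linComp_of (LS.VA hU)

/-- Every word is a description of itself, with one additional letter. -/
theorem desc_self (w : List Bool) : Desc (DU U) w (w.length + 1) := by
  refine ⟨false :: w, le_rfl, ?_⟩
  have h1 : false :: w = cd 0 w := rfl
  unfold DU VA
  rw [rst_cd, h1, l1_cd, rst_cd, ifz_zero, wd_num]

/-- The `i`-th accepted word of the machine `e` has a short description. -/
theorem desc_nth {w α : List Bool} {e i k : ℕ} (hi : i < k)
    (h : num w = nthX U (2 ^ w.length) e (num α) i) :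
    Desc (DU U) w (α.length + Nat.log 2 k + 2 * Nat.log 2 (Nat.log 2 k + 1) + (e + 6)) := by
  set j := Nat.log 2 k + 1 with hj
  set l := Nat.log 2 j + 1 with hl
  have hij : i < 2 ^ j := hi.trans (Nat.lt_pow_succ_log_self (by norm_num) k)
  have hjl : j < 2 ^ l := Nat.lt_pow_succ_log_self (by norm_num) j
  have ha := num_pos α
  have h1 : 0 < i + 2 ^ j * num α := by positivity
  have h2 : 0 < j + 2 ^ l * (i + 2 ^ j * num α) := by positivity
  have h3 : 0 < 2 ^ l - 1 + 2 ^ (l + 1) * (j + 2 ^ l * (i + 2 ^ j * num α)) := by positivity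
  obtain ⟨d1, hd1⟩ := exists_num h3
  have hlen : d1.length = 2 * l + 1 + j + α.length := by
    rw [← log_num, hd1, log_code _ _ h2, log_add_mul hjl h1, log_add_mul hij ha, log_num]
    ring
  refine ⟨cd (e + 1) d1, ?_, ?_⟩
  · have : (cd (e + 1) d1).length = e + 1 + (d1.length + 1) := by simp [cd]
    rw [this, hlen]
    omega
  · unfold DU VA
    rw [rst_cd, l1_cd, rst_cd, ifz_ne (Nat.succ_ne_zero e), l1_cd, Nat.add_sub_cancel, hd1,
      VB_code _ _ _ _ _ _ hij hjl ha, ← h, wd_num]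

end

/-- **The first accepted words have short descriptions.** There is a decompressor such that for all
machines, given by the predicates `Acc w y` (the machine accepts `w` with the additional word `y`) and
`Good w y` (it does so within the bounds), which have a code `e` (for long words): a machine which
accepts, with the advice `α` and with the acceptance condition `Q (c n)`, at least `k` words of length
`n` within the bounds accepts at least `k` words of length `n` with short descriptions. -/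
theorem kr_main (acc : ℕ → ℕ → ℕ → ℕ → ℕ) (N : ℕ → ℕ)
    (hacc : LS (fun z : ℕ × ℕ × ℕ × ℕ => acc z.1 z.2.1 z.2.2.1 z.2.2.2)) (hN : LS N) (c : ℕ) :
    ∃ D₀ : List Bool → List Bool, LinComp D₀ ∧ (∃ b : ℕ, ∀ w, Desc D₀ w (w.length + b)) ∧
      ∀ (Acc Good : List Bool → List Bool → Prop), (∀ w y, Good w y → Acc w y) →
        (∃ e n₀ : ℕ, ∀ w y : List Bool, n₀ ≤ w.length →
          (∀ S < N (num w), acc e (num w) (num y) S ≠ 0 → Acc w y) ∧
          (Good w y → ∃ S < N (num w), acc e (num w) (num y) S ≠ 0)) →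
        ∃ c' : ℕ, ∀ (n : ℕ) (α : List Bool) (k : ℕ),
          k ≤ {w : List Bool | w.length = n ∧ Q (c * n) fun v => Good w (α ++ v)}.ncard →
          k ≤ {w : List Bool | w.length = n ∧ Q (c * n) (fun v => Acc w (α ++ v)) ∧
            Desc D₀ w (α.length + Nat.log 2 k + 2 * Nat.log 2 (Nat.log 2 k + 1) + c')}.ncard := by
  have hU : LS fun z : ℕ × ℕ × ℕ => UQ acc N c z.1 z.2.1 z.2.2 :=
    Pool.Agent.Helper81.Gen4.LS.UQ hacc hN c (e := fun z : ℕ × ℕ × ℕ => z.1)
      (b := fun z => z.2.1) (x := fun z => z.2.2) (by fun_prop) (by fun_prop) (by fun_prop)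
  refine ⟨DU (UQ acc N c), linComp_DU hU, ⟨1, desc_self⟩, fun Acc Good hGA ⟨e, n₀, he⟩ => ?_⟩
  refine ⟨e + 6 + n₀ + 1, fun n α k hG => ?_⟩
  rcases Nat.lt_or_ge n n₀ with hn | hn
  · refine hG.trans (Set.ncard_le_ncard ?_ ((finite_len' n).subset fun w hw => hw.1))
    rintro w ⟨hw, h⟩
    refine ⟨hw, Q_mono (fun _ _ _ _ _ _ h => hGA _ _ h) h, ?_⟩
    obtain ⟨d, hd, hd'⟩ := desc_self (U := UQ acc N c) w
    exact ⟨d, by omega, hd'⟩
  · have hspec : ∀ w : List Bool, w.length = n →
        (UQ acc N c e (num α) (num w) ≠ 0 → Q (c * n) fun v => Acc w (α ++ v)) ∧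
        ((Q (c * n) fun v => Good w (α ++ v)) → UQ acc N c e (num α) (num w) ≠ 0) := by
      intro w hw
      subst hw
      exact UQ_spec (acc := acc) (N := N) c e (w := w) (a := α)
        (Acc := fun v => Acc w (α ++ v)) (Good := fun v => Good w (α ++ v))
        (fun y S hS h => (he w (α ++ y) hn).1 S hS h) (fun y hy => (he w (α ++ y) hn).2 hy)
    have h1 : k ≤ {w : List Bool | w.length = n ∧ UQ acc N c e (num α) (num w) ≠ 0}.ncard := by
      refine hG.trans (Set.ncard_le_ncard ?_ ((finite_len' n).subset fun w hw => hw.1))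
      rintro w ⟨hw, h⟩
      exact ⟨hw, (hspec w hw).2 h⟩
    refine (nth_count h1).trans (Set.ncard_le_ncard ?_ ((finite_len' n).subset fun w hw => hw.1))
    rintro w ⟨hw, h2, i, hi, h3⟩
    refine ⟨hw, (hspec w hw).1 h2, ?_⟩
    subst hw
    obtain ⟨d, hd, hd'⟩ := desc_nth hi h3
    exact ⟨d, by omega, hd'⟩

end Pool.Agent.Helper92.KR
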