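import Pool.Agent.Helper92.KR.Inst
import Pool.Agent.Helper92.RE.Quick
import Pool.Agent.Helper65.NX.K36.CLIN
import Pool.Agent.Helper65.NX.K8.AVAL
import Pool.Agent.Helper65.NX.K33.ACONE
import Pool.Agent.Helper65.NX.K82.ALIN
import Pool.Agent.Helper35.NX.CPL
import Pool.Agent.Helper35.NX.LOC
import Pool.Agent.Helper96.NX.APL

/-!
# Networks on the words `F w`
-/

namespace Pool.Agent.Helper92.KR

open Pool.Agent.Helper65.LinSpace Pool.Agent.Helper78.Mpc Pool.Agent.Helper28.Ram
open Pool.Agent.Helper65.HC (Circ)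
open Pool.Agent.Helper65.NX
open Pool.Agent.Helper92.RE (Loc Quick)

theorem len_of_num {u w : List Bool} (h : num u ≤ num w + 1) : u.length ≤ w.length + 1 := by
  have h1 : 2 ^ u.length ≤ num u := by
    have := Nat.pow_log_le_self 2 (num_pos u).ne'
    rwa [log_num] at this
  have h2 : num w < 2 ^ (w.length + 1) := by
    have := Nat.lt_pow_succ_log_self (b := 2) (by norm_num) (num w)
    rwa [log_num] at this
  have h3 : 2 ^ u.length ≤ 2 ^ (w.length + 1) := by omega
  exact (Nat.pow_le_pow_iff_right (by norm_num)).1 h3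

theorem len_pr (w : List Bool) : (pr w).length ≤ w.length + 1 := by
  unfold pr
  split_ifs with h
  · refine len_of_num ?_
    rw [Classical.choose_spec (exists_num h)]
    exact Pool.Agent.Helper31.SusD.lst_le _ _
  · simp

theorem len_re (w : List Bool) : (re w).length ≤ w.length + 1 := by
  unfold re
  split_ifs with h
  · refine len_of_num ?_
    rw [Classical.choose_spec (exists_num h)]
    exact Pool.Agent.Helper31.SusD.lst_le _ _
  · simp

theorem len_hz (u : List Bool) : (hz u).length ≤ u.length + 4 := by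
  unfold hz
  have h1 := len_pr (re (re (re u)))
  have h2 := len_re (re (re u))
  have h3 := len_re (re u)
  have h4 := len_re u
  omega

/-- The addresses of the network of a circuit are short. -/
theorem addr_circ {A : Circ} {N : Net} (h : IsCirc A N) (u : List Bool) :
    (N.addr u).length ≤ 5 * (u.length + 1) := by
  rw [h.addr]
  have h1 := len_hz (u.drop 1)
  have h2 := bval_lt (hz (u.drop 1))
  have h3 : (u.drop 1).length ≤ u.length := by simp
  have h4 : (if bval (hz (u.drop 1)) < hn (u.drop 1) then bval (hz (u.drop 1))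
      else bval (hz (u.drop 1)) - hn (u.drop 1)) < 2 ^ (hz (u.drop 1)).length := by
    split_ifs <;> omega
  have h5 := length_bits h4
  show (cadr (u.drop 1)).length ≤ _
  unfold cadr
  omega

/-- The addresses of the network of a cellular automaton are short. -/
theorem addr_ca {D : ℕ} {A : CA D} {N : Net} (h : IsCA A N) (u : List Bool) :
    (N.addr u).length ≤ 5 * (u.length + 1) := by
  rw [h.addr]
  have h1 := len_hz (u.drop 1)
  have h3 : (u.drop 1).length ≤ u.length := by simp
  show (hz (u.drop 1)).length ≤ _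
  omega

section

variable {c : ℕ} {F : List Bool → List Bool}

/-- Computations which are simulated by a network, on the words `F w`. -/
theorem sim_net (hF : Loc F) (hle : ∀ w, w.length ≤ (F w).length) {N : Net} {K : ℕ}
    (hK : ∀ u, (N.addr u).length ≤ K * (u.length + 1)) {Acc Good : List Bool → List Bool → Prop}
    (h1 : ∀ w y, (∃ p r, N.AcceptsAt w y p r) → Acc w y)
    (h2 : ∃ C : ℝ, ∀ w y, Good w y → N.Plain C w y) :
    Sim c (fun w y => Acc (F w) y) fun w y => Good (F w) y := by
  obtain ⟨C, hC⟩ := h2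
  obtain ⟨N', h3, h4⟩ := Pool.Agent.Helper35.NX.loc N K hK F hF hle
  obtain ⟨C', hC'⟩ := h4 C
  refine ⟨_, _, hub_net c N' nilE C', ?_, ?_, 0, ?_⟩
  · rintro w y ⟨p, r, h⟩
    exact h1 _ _ ⟨p, r, (h3 w y p r).1 h⟩
  · intro w y h
    obtain ⟨p, r, _, _, _, _, h5, -⟩ := hC' w y (hC _ _ h)
    exact ⟨p, r, h5⟩
  · intro w y _ _ h
    exact (hC' w y (hC _ _ h)).within nilE c

/-- Circuits of unbounded fan-in on the words `F w`. -/
theorem sim_circ (hF : Loc F) (hle : ∀ w, w.length ≤ (F w).length) (A : Circ) (C : ℝ) :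
    Sim c (fun w y => ∃ r, A.AcceptsAt (F w) y r) fun w y => A.Within C (F w) y := by
  obtain ⟨N, hN⟩ := Pool.Agent.Helper65.NX.K36.clin.1 A
  obtain ⟨h1, h2⟩ := Pool.Agent.Helper35.NX.cpl A N hN
  exact sim_net hF hle (addr_circ hN) (Acc := fun w y => ∃ r, A.AcceptsAt w y r)
    (Good := fun w y => A.Within C w y) h1 (h2 C)

/-- Cellular automata on the words `F w`. -/
theorem sim_ca (hF : Loc F) (hle : ∀ w, w.length ≤ (F w).length) {D : ℕ} [NeZero D] (A : CA D)
    (C : ℝ) :
    Sim c (fun w y => ∃ t, A.config (F w) y t 0 ∈ A.accept)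
      fun w y => Quick A C (F w) y := by
  obtain ⟨N, hN⟩ := (Pool.Agent.Helper65.NX.K82.alin A).1
  obtain ⟨h1, h2⟩ := Pool.Agent.Helper96.NX.apl Pool.Agent.Helper65.NX.K82.alin
    Pool.Agent.Helper65.NX.K8.aval Pool.Agent.Helper65.NX.K33.acone D A N hN
  exact sim_net hF hle (addr_ca hN) (Acc := fun w y => ∃ t, A.config w y t 0 ∈ A.accept)
    (Good := fun w y => Quick A C w y) h1 (h2 C)

end

end Pool.Agent.Helper92.KR
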